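import Pool.Statements.S00566
import Pool.Agent.Results.MP_fa7d23_ag.NefNotB

set_option autoImplicit false
open Pool Pool.MP_fa7d23_ag

namespace Pool.Agent.S00566

open MvPolynomial Pool.Agent.Results.MP_fa7d23_ag.NefNotB

variable {k : Type*} [Field k] {b : Fin 3 → k} {t : Fin 12 → k} {u : Fin 3 → k}

lemma nef_aux (hinj : Function.Injective (Fin.append t u : Fin (12 + 3) → k)) :
    ∀ (e : ℕ) (g : MvPolynomial (Fin 3) k), g.IsHomogeneous e → Irreducible g →
        ∀ μ : Fin 15 → ℕ,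
          (∀ i, g ∈ (Ideal.span (Set.range fun ab : Fin 3 × Fin 3 =>
            MvPolynomial.C (cfg t u i ab.1) * MvPolynomial.X ab.2
              - MvPolynomial.C (cfg t u i ab.2) * MvPolynomial.X ab.1) :
              Ideal (MvPolynomial (Fin 3) k)) ^ μ i) →
          ∑ i, (fun _ => 1 : Fin 15 → ℕ) i * μ i ≤ 4 * e := by
  intro n F hF hirr c hc
  have hF0 : F ≠ 0 := hirr.ne_zero
  simp only [one_mul]
  by_cases hd : Q4 ∣ F
  · have hassoc : Associated (Q4 : MvPolynomial (Fin 3) k) F :=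
      Q4_prime.irreducible.associated_of_dvd hirr hd
    obtain ⟨v, hv⟩ := hassoc
    have hvu := v.isUnit
    rw [MvPolynomial.isUnit_iff_totalDegree_of_isReduced] at hvu
    have hvC : (v : MvPolynomial (Fin 3) k) = C (coeff 0 (v : MvPolynomial (Fin 3) k)) :=
      totalDegree_eq_zero_iff_eq_C.1 hvu.2
    have ha : coeff 0 (v : MvPolynomial (Fin 3) k) ≠ 0 := hvu.1.ne_zero
    have hFe : F = C (coeff 0 (v : MvPolynomial (Fin 3) k)) * Q4 := by
      rw [← hv, mul_comm, ← hvC]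
    have hn : n = 4 := by
      have h2 : F.IsHomogeneous 4 := by
        rw [hFe]; exact Q4_hom.C_mul _
      exact hF.inj_right h2 hF0
    have hc1 : ∀ i, c i ≤ 1 := by
      intro i
      have := hc i
      rw [hFe] at this
      exact le_one_of_mem ha this
    have : ∑ i, c i ≤ ∑ _i : Fin 15, 1 :=
      Finset.sum_le_sum fun i _ => hc1 i
    simp at this
    omega
  · have hp0 : par F ≠ 0 := fun h => hd (Q4_dvd_of_par hF h)
    have hdvd : (∏ i, (Polynomial.X -
        Polynomial.C ((Fin.append t u : Fin (12 + 3) → k) i)) ^ (c i)) ∣ par F := by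
      apply Finset.prod_dvd_of_coprime
      · intro i _ j _ hij
        exact (Polynomial.pairwise_coprime_X_sub_C hinj hij).pow
      · intro i _
        exact par_mem _ (hc i)
    have h1 := Polynomial.natDegree_le_of_dvd hdvd hp0
    have h2 : (∏ i, (Polynomial.X -
        Polynomial.C ((Fin.append t u : Fin (12 + 3) → k) i)) ^ (c i)).natDegree = ∑ i, c i := by
      rw [Polynomial.natDegree_prod_of_monic]
      · apply Finset.sum_congr rfl
        intro i _
        rw [Polynomial.natDegree_pow, Polynomial.natDegree_X_sub_C, mul_one]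
      · intro i _
        exact (Polynomial.monic_X_sub_C _).pow _
    have h3 := par_deg hF
    rw [h2] at h1
    exact h1.trans h3

lemma notB_aux (hP : P12 b = ∏ i, (Polynomial.X - Polynomial.C (t i)))
    (hinj : Function.Injective (Fin.append t u : Fin (12 + 3) → k))
    (hu : (u 0 + u 1 + u 2) ^ 2 ≠ u 0 * u 1 + u 0 * u 2 + u 1 * u 2) :
    ¬ ∃ (e : ℕ) (γ : Fin 15 → ℤ), (e ≠ 0 ∨ γ ≠ 0) ∧
        (∃ f : MvPolynomial (Fin 3) k, f ≠ 0 ∧ f.IsHomogeneous e ∧
          ∀ i, f ∈ (Ideal.span (Set.range fun ab : Fin 3 × Fin 3 =>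
            MvPolynomial.C (cfg t u i ab.1) * MvPolynomial.X ab.2
              - MvPolynomial.C (cfg t u i ab.2) * MvPolynomial.X ab.1) :
              Ideal (MvPolynomial (Fin 3) k)) ^ (γ i).toNat) ∧
        e ≤ 4 ∧
        (∃ f : MvPolynomial (Fin 3) k, f ≠ 0 ∧ f.IsHomogeneous (4 - e) ∧
          ∀ i, f ∈ (Ideal.span (Set.range fun ab : Fin 3 × Fin 3 =>
            MvPolynomial.C (cfg t u i ab.1) * MvPolynomial.X ab.2
              - MvPolynomial.C (cfg t u i ab.2) * MvPolynomial.X ab.1) :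
              Ideal (MvPolynomial (Fin 3) k)) ^ ((((fun _ => 1 : Fin 15 → ℕ) i : ℕ) : ℤ) - γ i).toNat) ∧
        (e : ℤ) ^ 2 - ∑ i, (γ i) ^ 2 - 3 * (e : ℤ) + ∑ i, γ i > -2 ∧
        ((4 : ℕ) : ℤ) * (e : ℤ) - ∑ i, (((fun _ => 1 : Fin 15 → ℕ) i : ℕ) : ℤ) * γ i = 0 := by
  rintro ⟨d, e, hE, ⟨G, hG0, hGh, hGm⟩, hd4, ⟨G', hG'0, hGh', hGm'⟩, -, hint⟩
  simp only [Nat.cast_one, one_mul] at hint hGm'
  have hFh : (G * G').IsHomogeneous 4 := by
    have := hGh.mul hGh'
    have e4 : d + (4 - d) = 4 := by omega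
    rwa [e4] at this
  have hQ : Q4 ∣ G * G' := by
    apply unique_quartic hP hinj hu hFh
    intro i
    have h1 := Ideal.mul_mem_mul (hGm i) (hGm' i)
    rw [← pow_add] at h1
    have hne : (e i).toNat + (1 - e i).toNat ≠ 0 := by omega
    exact Ideal.pow_le_self hne h1
  rcases Q4_prime.dvd_or_dvd hQ with h | h
  · obtain ⟨h4, a, ha, hGa⟩ := scalar_of_dvd hGh hG0 (by omega) h
    have hz : 4 - d = 0 := by omega
    rw [hz] at hGh'
    obtain ⟨a', hGa'⟩ := const_of_hom_zero hGh'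
    have ha' : a' ≠ 0 := by
      intro h0; rw [h0, C_0] at hGa'; exact hG'0 hGa'
    have he : ∀ i, e i = 1 := by
      intro i
      have h1 := hGm' i
      rw [hGa'] at h1
      have h2 := eq_zero_of_const_mem ha' h1
      have h3 := hGm i
      rw [hGa] at h3
      have h4 := le_one_of_mem ha h3
      omega
    simp [h4, he] at hint
  · obtain ⟨h4, a, ha, hGa⟩ := scalar_of_dvd hGh' hG'0 (by omega) h
    have hz : d = 0 := by omega
    rw [hz] at hGh
    obtain ⟨a', hGa'⟩ := const_of_hom_zero hGh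
    have ha' : a' ≠ 0 := by
      intro h0; rw [h0, C_0] at hGa'; exact hG0 hGa'
    have he : ∀ i, e i = 0 := by
      intro i
      have h1 := hGm i
      rw [hGa'] at h1
      have h2 := eq_zero_of_const_mem ha' h1
      have h3 := hGm' i
      rw [hGa] at h3
      have h4 := le_one_of_mem ha h3
      omega
    rcases hE with hE | hE
    · exact hE hz
    · exact hE (funext he)


/-- The negation of the preceding statement: For any r≥1 distinct points of the plane over an algebraically closed field and any effective nef L on the blow-up failing (B), some multiple mL has h^0(mL) equal to its Riemann–Roch value, i.e. h^1(mL)=0. -/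
theorem result :
    ¬ (∀ (k : Type) [Field k] [IsAlgClosed k] (r : ℕ), 1 ≤ r →
  ∀ (p : Fin r → Fin 3 → k),
    (∀ i, p i ≠ 0) →
    (∀ i j, i ≠ j → ∀ c : k, p i ≠ c • p j) →
  ∀ (d : ℕ) (a : Fin r → ℕ),
    (∃ f : MvPolynomial (Fin 3) k, f ≠ 0 ∧ f.IsHomogeneous d ∧
        ∀ i, f ∈ (Ideal.span (Set.range fun ab : Fin 3 × Fin 3 =>
            MvPolynomial.C (p i ab.1) * MvPolynomial.X ab.2
              - MvPolynomial.C (p i ab.2) * MvPolynomial.X ab.1) :
              Ideal (MvPolynomial (Fin 3) k)) ^ a i) →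
    (∀ (e : ℕ) (g : MvPolynomial (Fin 3) k), g.IsHomogeneous e → Irreducible g →
        ∀ μ : Fin r → ℕ,
          (∀ i, g ∈ (Ideal.span (Set.range fun ab : Fin 3 × Fin 3 =>
            MvPolynomial.C (p i ab.1) * MvPolynomial.X ab.2
              - MvPolynomial.C (p i ab.2) * MvPolynomial.X ab.1) :
              Ideal (MvPolynomial (Fin 3) k)) ^ μ i) →
          ∑ i, a i * μ i ≤ d * e) →
    (¬ ∃ (e : ℕ) (γ : Fin r → ℤ), (e ≠ 0 ∨ γ ≠ 0) ∧
        (∃ f : MvPolynomial (Fin 3) k, f ≠ 0 ∧ f.IsHomogeneous e ∧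
          ∀ i, f ∈ (Ideal.span (Set.range fun ab : Fin 3 × Fin 3 =>
            MvPolynomial.C (p i ab.1) * MvPolynomial.X ab.2
              - MvPolynomial.C (p i ab.2) * MvPolynomial.X ab.1) :
              Ideal (MvPolynomial (Fin 3) k)) ^ (γ i).toNat) ∧
        e ≤ d ∧
        (∃ f : MvPolynomial (Fin 3) k, f ≠ 0 ∧ f.IsHomogeneous (d - e) ∧
          ∀ i, f ∈ (Ideal.span (Set.range fun ab : Fin 3 × Fin 3 =>
            MvPolynomial.C (p i ab.1) * MvPolynomial.X ab.2
              - MvPolynomial.C (p i ab.2) * MvPolynomial.X ab.1) :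
              Ideal (MvPolynomial (Fin 3) k)) ^ ((a i : ℤ) - γ i).toNat) ∧
        (e : ℤ) ^ 2 - ∑ i, (γ i) ^ 2 - 3 * (e : ℤ) + ∑ i, γ i > -2 ∧
        (d : ℤ) * (e : ℤ) - ∑ i, (a i : ℤ) * γ i = 0) →
    ∃ m : ℕ, 1 ≤ m ∧
      2 * (Module.finrank k
        ↥(MvPolynomial.homogeneousSubmodule (Fin 3) k (m * d) ⊓
          ⨅ i, Submodule.restrictScalars k
            ((Ideal.span (Set.range fun ab : Fin 3 × Fin 3 =>
              MvPolynomial.C (p i ab.1) * MvPolynomial.X ab.2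
                - MvPolynomial.C (p i ab.2) * MvPolynomial.X ab.1) :
                Ideal (MvPolynomial (Fin 3) k)) ^ (m * a i))) : ℤ)
        = 2 + ((m * d : ℕ) : ℤ) ^ 2 - ∑ i, ((m * a i : ℕ) : ℤ) ^ 2
            + 3 * ((m * d : ℕ) : ℤ) - ∑ i, ((m * a i : ℕ) : ℤ)) := by
  intro H
  obtain ⟨b, t, u, hP, hinj, hu⟩ := exists_config (AlgebraicClosure ℚ)
  obtain ⟨m, hm, he⟩ := H (AlgebraicClosure ℚ) 15 (by norm_num) (cfg t u)
    (cfg_distinct hinj).1 (cfg_distinct hinj).2 4 (fun _ => 1)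
    ⟨Q4, Q4_ne_zero, Q4_hom, fun i => by rw [pow_one]; exact Q4_mem _⟩
    (nef_aux hinj) (notB_aux hP hinj hu)
  obtain ⟨n, rfl⟩ : ∃ n, m = n + 1 := ⟨m - 1, by omega⟩
  have h1 := cfg_h1 (u := u) hP n
  rw [show ((fun _ => ((n + 1 : ℕ) : ℤ)) : Fin 15 → ℤ) =
    fun i => (((fun _ => n + 1) : Fin 15 → ℕ) i : ℤ) from rfl, h1_eq_superabundance, H0_coe] at h1
  have e1 : ((n + 1) * 4 : ℕ) = 4 * (n + 1) := by ring
  rw [e1] at he
  have e2 : (n + 1) * 1 = n + 1 := mul_one _
  rw [e2] at he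
  have k1 := key_choose (4 * (n + 1) + 1)
  have k2 := key_choose (n + 1)
  simp only [Finset.sum_const, Finset.card_univ, Fintype.card_fin, nsmul_eq_mul] at h1 he
  unfold pointIdeal at h1
  push_cast at h1 he k1 k2
  nlinarith


end Pool.Agent.S00566
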