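import Pool.Statements.S01012

set_option autoImplicit false
open Pool Pool.MP_293fae_al

namespace Pool.Agent.S01012

/-- In a domain with `i ^ 2 = -1` in which `1 + i` is a prime element, `2 + 2 i` is not a sum of two
squares. -/
theorem not_two {D : Type*} [CommRing D] [IsDomain D] (i : D) (hi : i * i = -1)
    (hp : Prime (1 + i)) (a b : D) : 2 + 2 * i ≠ a ^ 2 + b ^ 2 := by
  intro h
  set p := 1 + i with hpdef
  have hi' : i = p - 1 := by rw [hpdef]; ring
  have hp2 : p ^ 2 = 2 * p - 2 := by
    have : (p - 1) * (p - 1) = -1 := by rw [← hi']; exact hi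
    linear_combination this
  set u := a + i * b with hu
  set v := a - i * b with hv
  have huv : u * v = -i * p ^ 3 := by
    have h1 : u * v = a ^ 2 + b ^ 2 := by
      rw [hu, hv]
      linear_combination -b ^ 2 * hi
    have h2 : -i * p ^ 3 = 2 + 2 * i := by
      rw [hpdef]
      linear_combination (-2 - i * 3 - i * i) * hi
    rw [h1, ← h, h2]
  have hsub : u - v = p ^ 2 * b := by
    have h3 : p ^ 2 = 2 * i := by rw [hp2, hi']; ring
    rw [h3, hu, hv]
    ring
  have hunit : ¬ p ∣ -i := by
    intro hd
    apply hp.not_isUnit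
    apply isUnit_of_dvd_unit hd
    exact IsUnit.of_mul_eq_one i (by linear_combination -hi)
  have hpu : p ∣ u ↔ p ∣ v := by
    have h1 : p ∣ u - v := ⟨p * b, by rw [hsub]; ring⟩
    constructor
    · intro h2
      have := dvd_sub h2 h1
      simpa using this
    · intro h2
      have := dvd_add h1 h2
      simpa using this
  have hdu : p ∣ u ∧ p ∣ v := by
    have h1 : p ∣ u * v := ⟨-i * p ^ 2, by rw [huv]; ring⟩
    rcases hp.dvd_or_dvd h1 with h2 | h2
    · exact ⟨h2, hpu.1 h2⟩
    · exact ⟨hpu.2 h2, h2⟩
  obtain ⟨⟨u', hu'⟩, ⟨v', hv'⟩⟩ := hdu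
  have huv' : u' * v' = -i * p := by
    have h1 : p ^ 2 * (u' * v') = p ^ 2 * (-i * p) := by
      rw [hu', hv'] at huv
      linear_combination huv
    exact mul_left_cancel₀ (pow_ne_zero 2 hp.ne_zero) h1
  have hsub' : u' - v' = p * b := by
    have h1 : p * (u' - v') = p * (p * b) := by
      rw [hu', hv'] at hsub
      linear_combination hsub
    exact mul_left_cancel₀ hp.ne_zero h1
  have hdu' : p ∣ u' ∧ p ∣ v' := by
    have h1 : p ∣ u' * v' := ⟨-i, by rw [huv']; ring⟩
    rcases hp.dvd_or_dvd h1 with h2 | h2
    · refine ⟨h2, ?_⟩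
      have h3 := dvd_sub h2 (Dvd.intro b hsub'.symm)
      simpa using h3
    · refine ⟨?_, h2⟩
      have h3 := dvd_add (Dvd.intro b hsub'.symm) h2
      simpa using h3
  obtain ⟨⟨u'', hu''⟩, ⟨v'', hv''⟩⟩ := hdu'
  apply hunit
  refine ⟨u'' * v'', ?_⟩
  have h1 : p * (-i) = p * (p * (u'' * v'')) := by
    rw [hu'', hv''] at huv'
    linear_combination -huv'
  exact mul_left_cancel₀ hp.ne_zero h1

/-- `1 + i` is prime in `ℤ[i]` -/
theorem prime_pi : Prime (⟨1, 1⟩ : GaussianInt) := by
  have hirr : Irreducible (⟨1, 1⟩ : GaussianInt) := by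
    constructor
    · intro h
      rw [Zsqrtd.isUnit_iff_norm_isUnit] at h
      revert h
      rw [Int.isUnit_iff]
      simp [Zsqrtd.norm]
    · intro a b hab
      have h1 := congrArg Zsqrtd.norm hab
      rw [Zsqrtd.norm_mul] at h1
      have h2 : Zsqrtd.norm (⟨1, 1⟩ : GaussianInt) = 2 := by simp [Zsqrtd.norm]
      rw [h2] at h1
      have h3 : Irreducible (2 : ℤ) := Int.prime_two.irreducible
      rcases h3.isUnit_or_isUnit h1 with h4 | h4
      · left
        exact (Zsqrtd.isUnit_iff_norm_isUnit _).2 h4
      · right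
        exact (Zsqrtd.isUnit_iff_norm_isUnit _).2 h4
  exact hirr.prime

/-- the ideal generated by `1 + i` in `ℤ[i]` -/
def P : Ideal GaussianInt := Ideal.span {(⟨1, 1⟩ : GaussianInt)}

theorem P_def : P = Ideal.span {(⟨1, 1⟩ : GaussianInt)} := rfl

instance : P.IsPrime := (Ideal.span_singleton_prime prime_pi.ne_zero).2 prime_pi

theorem P_ne_bot : P ≠ ⊥ := by
  rw [P, Ne, Ideal.span_singleton_eq_bot]
  exact prime_pi.ne_zero

/-- the localisation of `ℤ[i]` at `1 + i` -/
abbrev D : Type := Localization.AtPrime P

instance : IsDomain D := IsLocalization.isDomain_localization P.primeCompl_le_nonZeroDivisors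

instance : IsDiscreteValuationRing D :=
  IsLocalization.AtPrime.isDiscreteValuationRing_of_dedekind_domain GaussianInt P_ne_bot D

/-- the element `i` -/
noncomputable def iD : D := algebraMap GaussianInt D ⟨0, 1⟩

theorem iD_mul : iD * iD = -1 := by
  rw [iD, ← map_mul, ← map_one (algebraMap GaussianInt D), ← map_neg]
  congr 1

theorem pi_eq : algebraMap GaussianInt D ⟨1, 1⟩ = 1 + iD := by
  rw [iD, ← map_one (algebraMap GaussianInt D), ← map_add]
  congr 1

theorem maxD : IsLocalRing.maximalIdeal D = Ideal.span {1 + iD} := by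
  have h : Ideal.map (algebraMap GaussianInt D) P =
      Ideal.span {algebraMap GaussianInt D ⟨1, 1⟩} := by
    change Ideal.map (algebraMap GaussianInt D) (Ideal.span {(⟨1, 1⟩ : GaussianInt)}) = _
    rw [Ideal.map_span, Set.image_singleton]
  rw [← Localization.AtPrime.map_eq_maximalIdeal (I := P), h, pi_eq]

theorem prime_piD : Prime (1 + iD) := by
  have h0 : (1 + iD) ≠ 0 := by
    intro h
    have h1 := maxD
    rw [h, Ideal.span_singleton_eq_bot.2 rfl] at h1
    exact IsDiscreteValuationRing.not_a_field D h1
  rw [← Ideal.span_singleton_prime h0, ← maxD]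
  infer_instance

/-- the two-dimensional regular local ring -/
abbrev R : Type := PowerSeries D

theorem maxR : IsLocalRing.maximalIdeal R =
    Ideal.span {PowerSeries.C (1 + iD), PowerSeries.X} := by
  apply le_antisymm
  · intro f hf
    rw [f.eq_X_mul_shift_add_const]
    have h1 : PowerSeries.constantCoeff f ∈ IsLocalRing.maximalIdeal D := by
      rw [IsLocalRing.mem_maximalIdeal, mem_nonunits_iff] at hf ⊢
      intro h
      exact hf (PowerSeries.isUnit_iff_constantCoeff.2 h)
    rw [maxD, Ideal.mem_span_singleton] at h1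
    obtain ⟨d, hd⟩ := h1
    refine Ideal.add_mem _ (Ideal.mul_mem_right _ _ (Ideal.subset_span (by simp))) ?_
    rw [hd, map_mul]
    exact Ideal.mul_mem_right _ _ (Ideal.subset_span (by simp))
  · rw [Ideal.span_le]
    rintro f (rfl | rfl)
    · change _ ∈ IsLocalRing.maximalIdeal R
      rw [IsLocalRing.mem_maximalIdeal, mem_nonunits_iff, PowerSeries.isUnit_iff_constantCoeff,
        PowerSeries.constantCoeff_C]
      exact prime_piD.not_isUnit
    · change _ ∈ IsLocalRing.maximalIdeal R
      rw [IsLocalRing.mem_maximalIdeal, mem_nonunits_iff, PowerSeries.isUnit_iff_constantCoeff,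
        PowerSeries.constantCoeff_X]
      exact not_isUnit_zero

theorem dimR : ringKrullDim R = 2 := by
  apply le_antisymm
  · refine (ringKrullDim_le_spanFinrank_maximalIdeal R).trans ?_
    rw [maxR]
    have h := Submodule.spanFinrank_span_le_ncard_of_finite (R := R)
      (s := {PowerSeries.C (1 + iD), PowerSeries.X}) (Set.toFinite _)
    have h2 : Set.ncard ({PowerSeries.C (1 + iD), PowerSeries.X} : Set R) ≤ 2 :=
      Set.ncard_insert_le _ _ |>.trans (by simp)
    exact_mod_cast h.trans h2
  · have h1 := ringKrullDim_succ_le_ringKrullDim_powerseries (R := D)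
    rw [IsDiscreteValuationRing.ringKrullDim_eq_one] at h1
    exact le_trans (by norm_num) h1

/-- The negation of the preceding statement: For every 2-dimensional regular local ring R with fraction field K, and every n, every sum of squares in R is a sum of n squares iff the same holds in K; that is, the Pythagoras numbers of R and K agree. -/
theorem result :
    ¬ (∀ (R : Type) [CommRing R] [IsDomain R] [IsLocalRing R] [IsNoetherianRing R],
      ringKrullDim R = 2 →
      (∃ a b : R, IsLocalRing.maximalIdeal R = Ideal.span {a, b}) →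
      ∀ (K : Type) [Field K] [Algebra R K] [IsFractionRing R K],
      ∀ n : ℕ,
        ((∀ x : R, IsSumSq x → ∃ f : Fin n → R, x = ∑ i, f i ^ 2) ↔
          (∀ x : K, IsSumSq x → ∃ f : Fin n → K, x = ∑ i, f i ^ 2))) := by
  intro H
  have h := (H R dimR ⟨_, _, maxR⟩ (FractionRing R) 2).2 (by
    intro x _
    set j : FractionRing R := algebraMap R (FractionRing R) (PowerSeries.C iD) with hj
    have hj2 : j * j = -1 := by
      rw [hj, ← map_mul, ← map_mul, iD_mul]
      simp
    have h2 : (2 : FractionRing R) ≠ 0 := by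
      have h3 : (2 : D) ≠ 0 := by
        intro h4
        have h5 : (algebraMap GaussianInt D) 2 = 0 := by rw [map_ofNat]; exact h4
        rw [map_eq_zero_iff _ (IsLocalization.injective D
          P.primeCompl_le_nonZeroDivisors)] at h5
        exact absurd h5 (by decide)
      intro h4
      apply h3
      have h5 : algebraMap R (FractionRing R) (PowerSeries.C (2 : D)) = 0 := by
        rw [map_ofNat, map_ofNat]
        exact h4
      rw [map_eq_zero_iff _ (IsFractionRing.injective R (FractionRing R))] at h5
      have h6 := congrArg PowerSeries.constantCoeff h5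
      simpa using h6
    refine ⟨![(x + 1) / 2, j * (x - 1) / 2], ?_⟩
    rw [Fin.sum_univ_two]
    simp only [Matrix.cons_val_zero, Matrix.cons_val_one]
    field_simp
    linear_combination -(x - 1) ^ 2 * hj2)
    (PowerSeries.C (2 + 2 * iD)) (by
      have h1 : PowerSeries.C (2 + 2 * iD) =
          PowerSeries.C (1 + iD) * PowerSeries.C (1 + iD) + ((1 : R) * 1 + (1 * 1 + 0)) := by
        have h2 : (2 + 2 * iD) = (1 + iD) * (1 + iD) + (1 * 1 + (1 * 1 + 0)) := by
          linear_combination -iD_mul
        rw [h2]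
        simp only [map_add, map_mul, map_one, map_zero]
      rw [h1]
      exact IsSumSq.sq_add _ (IsSumSq.sq_add _ (IsSumSq.sq_add _ IsSumSq.zero)))
  obtain ⟨f, hf⟩ := h
  rw [Fin.sum_univ_two] at hf
  have h3 := congrArg PowerSeries.constantCoeff hf
  rw [PowerSeries.constantCoeff_C, map_add, map_pow, map_pow] at h3
  exact not_two iD iD_mul prime_piD _ _ h3

end Pool.Agent.S01012
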