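import Pool.Statements.S02012
import Pool.Agent.Helper4W.Tree

set_option autoImplicit false
open Pool Pool.MP_79f901_al

namespace Pool.Agent.S02012

open Pool.Agent.Helper4W

/-- the vertices of the binary tree in the form of the frozen statement -/
abbrev V : Type := {l : List ℕ // ∀ i (h : i < l.length), l.get ⟨i, h⟩ < (fun _ : ℕ => 2) i}

/-- letters to Booleans and back -/
def e : V ≃ List Bool where
  toFun v := v.1.map (fun k => decide (k = 1))
  invFun l := ⟨l.map (fun b => if b then 1 else 0), by
    intro i h
    rw [List.get_eq_getElem, List.getElem_map]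
    split_ifs <;> simp⟩
  left_inv v := by
    apply Subtype.ext
    apply List.ext_getElem
    · simp
    · intro i h1 h2
      have h3 := v.2 i h2
      rw [List.get_eq_getElem] at h3
      simp only [List.getElem_map, decide_eq_true_eq]
      split_ifs with h4
      · exact h4.symm
      · have h5 : v.1[i] < 2 := h3
        change 0 = v.1[i]
        omega
  right_inv l := by
    apply List.ext_getElem
    · simp
    · intro i h1 h2
      simp

theorem e_length (v : V) : (e v).length = v.1.length := by
  simp [e]

theorem e_pre (v w : V) : v.1 <+: w.1 ↔ e v <+: e w := by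
  constructor
  · intro h
    exact h.map _
  · intro h
    have h2 : (e.symm (e v)).1 <+: (e.symm (e w)).1 := h.map _
    rwa [e.symm_apply_apply, e.symm_apply_apply] at h2

/-- the transport of permutations -/
def π : Equiv.Perm V ≃* Equiv.Perm (List Bool) := e.permCongrHom

theorem π_apply (g : Equiv.Perm V) (v : V) : π g (e v) = e (g v) := by
  simp [π, Equiv.permCongrHom, Equiv.permCongr_apply]

theorem π_symm_apply (g : Equiv.Perm (List Bool)) (v : V) : e (π.symm g v) = g (e v) := by
  rw [← π_apply, MulEquiv.apply_symm_apply]

/-- the branch group -/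
def L : Subgroup (Equiv.Perm V) := LL.comap π.toMonoidHom

theorem mem_L (g : Equiv.Perm V) : g ∈ L ↔ π g ∈ LL := Iff.rfl

theorem L_pre (g : Equiv.Perm V) (hg : g ∈ L) (v w : V) :
    v.1 <+: w.1 ↔ (g v).1 <+: (g w).1 := by
  rw [e_pre, e_pre, ← π_apply, ← π_apply]
  exact LL_pre_iff hg

/-- the two groups are isomorphic -/
def eL : L ≃* LL where
  toFun g := ⟨π g.1, g.2⟩
  invFun g := ⟨π.symm g.1, by rw [mem_L, MulEquiv.apply_symm_apply]; exact g.2⟩
  left_inv g := Subtype.ext (π.symm_apply_apply g.1)
  right_inv g := Subtype.ext (π.apply_symm_apply g.1)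
  map_mul' g h := Subtype.ext (map_mul π g.1 h.1)

theorem stab_index (v : V) : (MulAction.stabilizer L v).index ≠ 0 := by
  rw [MulAction.index_stabilizer]
  have hfin : (MulAction.orbit L v).Finite := by
    have h1 : {u : List Bool | u.length = v.1.length}.Finite := List.finite_length_eq Bool _
    refine Set.Finite.subset (h1.preimage (f := e) (e.injective.injOn)) ?_
    rintro _ ⟨g, rfl⟩
    change (e (g.1 v)).length = v.1.length
    rw [← π_apply, ← e_length]
    exact LL_len g.2 _
  exact Set.ncard_ne_zero_of_mem (MulAction.mem_orbit_self v) hfin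

/-- The negation of the preceding statement: For every branch group L acting on a spherically homogeneous rooted tree, every automorphism of L is conjugation by a unique tree automorphism, so Aut L equals the normalizer of L in Aut T. -/
theorem result :
    ¬ (∀ (m : ℕ → ℕ), (∀ n, 2 ≤ m n) →
    ∀ L : Subgroup (Equiv.Perm {l : List ℕ // ∀ i (h : i < l.length), l.get ⟨i, h⟩ < m i}),
    (∀ g ∈ L, ∀ v w : {l : List ℕ // ∀ i (h : i < l.length), l.get ⟨i, h⟩ < m i},
        (List.IsPrefix v.1 w.1 ↔ List.IsPrefix (g v).1 (g w).1)) →
    (∀ v w : {l : List ℕ // ∀ i (h : i < l.length), l.get ⟨i, h⟩ < m i},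
        v.1.length = w.1.length → ∃ g ∈ L, g v = w) →
    (∀ n : ℕ, ((Subgroup.closure
        {g : Equiv.Perm {l : List ℕ // ∀ i (h : i < l.length), l.get ⟨i, h⟩ < m i} |
          g ∈ L ∧ ∃ u : {l : List ℕ // ∀ i (h : i < l.length), l.get ⟨i, h⟩ < m i},
            u.1.length = n ∧
            ∀ v : {l : List ℕ // ∀ i (h : i < l.length), l.get ⟨i, h⟩ < m i},
              ¬ List.IsPrefix u.1 v.1 → g v = v}).subgroupOf L).index ≠ 0) →
    ∀ φ : L ≃* L,
      ∃! σ : Equiv.Perm {l : List ℕ // ∀ i (h : i < l.length), l.get ⟨i, h⟩ < m i},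
        (∀ v w : {l : List ℕ // ∀ i (h : i < l.length), l.get ⟨i, h⟩ < m i},
          (List.IsPrefix v.1 w.1 ↔ List.IsPrefix (σ v).1 (σ w).1)) ∧
        ∀ g : L, ((φ g : L) : Equiv.Perm {l : List ℕ // ∀ i (h : i < l.length), l.get ⟨i, h⟩ < m i})
          = σ * (g : Equiv.Perm {l : List ℕ // ∀ i (h : i < l.length), l.get ⟨i, h⟩ < m i}) * σ⁻¹) := by
  intro H
  obtain ⟨σ, ⟨hσ1, hσ2⟩, -⟩ := H (fun _ => 2) (fun _ => le_rfl) L (fun g hg v w => L_pre g hg v w)
    (by
      intro v w hvw
      obtain ⟨g, hg, hgv⟩ := LL_trans (v := e v) (w := e w) (by rw [e_length, e_length]; exact hvw)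
      refine ⟨π.symm g, ?_, ?_⟩
      · rw [mem_L, MulEquiv.apply_symm_apply]
        exact hg
      · apply e.injective
        rw [π_symm_apply, hgv])
    (by
      intro n
      have hfin : {v : V | v.1.length = max n 2}.Finite := by
        have h1 : {u : List Bool | u.length = max n 2}.Finite := List.finite_length_eq Bool _
        refine Set.Finite.subset (h1.preimage (f := e) (e.injective.injOn)) ?_
        intro v hv
        change (e v).length = _
        rw [e_length]
        exact hv
      have := hfin.to_subtype
      have h2 : (⨅ v : {v : V | v.1.length = max n 2}, MulAction.stabilizer L v.1).index ≠ 0 :=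
        Subgroup.index_iInf_ne_zero (fun v => stab_index v.1)
      refine ne_zero_of_dvd_ne_zero h2 (Subgroup.index_dvd_of_le ?_)
      intro g hg
      rw [Subgroup.mem_iInf] at hg
      have hfixN : ∀ u : List Bool, u.length = max n 2 → π g.1 u = u := by
        intro u hu
        have h3 := hg ⟨e.symm u, by
          change (e.symm u).1.length = _
          rw [← e_length, e.apply_symm_apply, hu]⟩
        rw [MulAction.mem_stabilizer_iff] at h3
        have h4 : g.1 (e.symm u) = e.symm u := h3
        have h5 := π_apply g.1 (e.symm u)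
        rw [h4, e.apply_symm_apply] at h5
        exact h5
      have hfix : ∀ u : List Bool, u.length ≤ max n 2 → π g.1 u = u := by
        intro u hu
        set w := u ++ List.replicate (max n 2 - u.length) false with hw
        have hwl : w.length = max n 2 := by
          rw [hw, List.length_append, List.length_replicate]
          omega
        have h3 : (π g.1 w).take u.length = π g.1 (w.take u.length) := LL_take g.2 w u.length
        rw [hfixN w hwl] at h3
        have h4 : w.take u.length = u := by
          rw [hw]
          simp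
        rw [h4] at h3
        exact h3.symm
      have h6 : π g.1 ∈ Subgroup.closure (RR n) := mem_closure_RR (π g.1) g.2 n (fun v hv => hfix v (hv.trans (le_max_left _ _)))
        (fun v hv => hfix v (hv.trans (le_max_right _ _)))
      rw [Subgroup.mem_subgroupOf]
      have h7 : π.symm (π g.1) ∈ (Subgroup.closure (RR n)).map π.symm.toMonoidHom :=
        Subgroup.mem_map_of_mem _ h6
      rw [MonoidHom.map_closure, MulEquiv.symm_apply_apply] at h7
      refine Subgroup.closure_mono ?_ h7
      rintro _ ⟨r, ⟨hr, u, hu, hr2⟩, rfl⟩
      refine ⟨?_, e.symm u, ?_, ?_⟩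
      · change π (π.symm r) ∈ LL
        rw [MulEquiv.apply_symm_apply]
        exact hr
      · change (e.symm u).1.length = n
        rw [← e_length, e.apply_symm_apply, hu]
      · intro v hv
        apply e.injective
        change e (π.symm r v) = e v
        rw [π_symm_apply]
        apply hr2
        intro h8
        apply hv
        rw [e_pre, e.apply_symm_apply]
        exact h8)
    ((eL.trans Phi).trans eL.symm)
  obtain ⟨g, hg⟩ := no_conj (π σ) (by
    intro v w
    have h1 := hσ1 (e.symm v) (e.symm w)
    rw [e_pre, e_pre, ← π_apply, ← π_apply] at h1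
    simp only [e.apply_symm_apply] at h1
    exact h1)
  apply hg
  have h2 := hσ2 (eL.symm g)
  have h3 := congrArg π h2
  rw [map_mul, map_mul, map_inv] at h3
  have h4 : π ((eL.symm g).1) = g.1 := π.apply_symm_apply g.1
  have h5 : π ((((eL.trans Phi).trans eL.symm) (eL.symm g)).1) = (Phi g).1 := by
    change π ((eL.symm (Phi (eL (eL.symm g)))).1) = _
    rw [MulEquiv.apply_symm_apply]
    exact π.apply_symm_apply _
  rw [h4] at h3
  rw [← h5]
  exact h3

end Pool.Agent.S02012
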