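import Pool.Statements.S03052
import Pool.Agent.Helper5.PI.Std
-- import your own Pool.Agent.* helpers here

set_option autoImplicit false
open Pool Pool.MP_cacfbf_al

namespace Pool.Agent.S03052

open Pool.Agent.Helper5.PI

attribute [local instance 100] LieRing.ofAssociativeRing

/-- The relation defining the restricted enveloping algebra. -/
abbrev rl : UniversalEnvelopingAlgebra K HL → UniversalEnvelopingAlgebra K HL → Prop :=
  fun a b => ∃ x : HL, a = UniversalEnvelopingAlgebra.ι K x ^ 3 ∧
    b = UniversalEnvelopingAlgebra.ι K (f x)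

/-- The canonical map from the Lie algebra to its restricted enveloping algebra. -/
noncomputable def j (x : HL) : RingQuot rl :=
  RingQuot.mkAlgHom K rl (UniversalEnvelopingAlgebra.ι K x)

theorem j_cube (x : HL) : j x ^ 3 = j (f x) := by
  unfold j
  rw [← map_pow]
  exact RingQuot.mkAlgHom_rel K ⟨x, rfl, rfl⟩

theorem j_comm (x y : HL) : j x * j y = j y * j x + j ⁅x, y⁆ := by
  unfold j
  rw [LieHom.map_lie, LieRing.of_associative_ring_bracket, map_sub, map_mul, map_mul]
  abel

theorem j_zero : j 0 = 0 := by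
  unfold j
  rw [map_zero, map_zero]

theorem mk0 (a b c : K) : mk a b c 0 = a := rfl
theorem mk1 (a b c : K) : mk a b c 1 = b := rfl
theorem mk2 (a b c : K) : mk a b c 2 = c := rfl

theorem rels : Rels (j (mk 1 0 0)) (j (mk 0 1 0)) (j (mk 0 0 1)) where
  xy := by
    rw [j_comm]
    congr 2
  xz := by
    rw [j_comm]
    have : ⁅mk 1 0 0, mk 0 0 1⁆ = 0 := by ext <;> simp [mk0, mk1, mk2]
    rw [this, j_zero, add_zero]
  yz := by
    rw [j_comm]
    have : ⁅mk 0 1 0, mk 0 0 1⁆ = 0 := by ext <;> simp [mk0, mk1, mk2]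
    rw [this, j_zero, add_zero]
  x3 := by
    have h := j_cube (mk 1 0 0)
    have : f (mk 1 0 0) = 0 := by ext <;> simp [mk0, mk1, mk2]
    rw [this, j_zero] at h
    rw [← h]; noncomm_ring
  y3 := by
    have h := j_cube (mk 0 1 0)
    have : f (mk 0 1 0) = 0 := by ext <;> simp [mk0, mk1, mk2]
    rw [this, j_zero] at h
    rw [← h]; noncomm_ring
  z3 := by
    have h := j_cube (mk 0 0 1)
    have : f (mk 0 0 1) = mk 0 0 1 := by ext <;> simp [mk0, mk1, mk2]
    rw [this] at h
    rw [← pow_two, ← pow_succ, h]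

/-- A representation by `3 × 3` matrices: `x` and `y` act as `d/dt` and `t` on `F_3[t]/(t^3)`. -/
def rho (u : HL) : Matrix (Fin 3) (Fin 3) K :=
  !![u 2, u 0, 0; u 1, u 2, 2 * u 0; 0, u 1, u 2]

/-- `rho` as a homomorphism of Lie algebras. -/
def rhoL : HL →ₗ⁅K⁆ Matrix (Fin 3) (Fin 3) K where
  toFun := rho
  map_add' u v := by
    ext i k; fin_cases i <;> fin_cases k <;> simp [rho] <;> ring
  map_smul' a v := by
    ext i k; fin_cases i <;> fin_cases k <;> simp [rho] <;> ring
  map_lie' := by
    intro u v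
    have h3 : (3 : K) = 0 := by decide
    rw [LieRing.of_associative_ring_bracket]
    ext i k
    fin_cases i <;> fin_cases k <;> simp [rho] <;>
      first
        | ring1
        | linear_combination (u 0 * v 1 - u 1 * v 0) * h3
        | linear_combination -(u 0 * v 1 - u 1 * v 0) * h3

theorem rho_cube (u : HL) : rho u ^ 3 = rho (f u) := by
  have : ∀ a b c : K, (!![c, a, 0; b, c, 2 * a; 0, b, c] : Matrix (Fin 3) (Fin 3) K) ^ 3 =
      !![c, 0, 0; 0, c, 2 * 0; 0, 0, c] := by decide
  exact this (u 0) (u 1) (u 2)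

/-- The representation of the restricted enveloping algebra. -/
noncomputable def rhoA : RingQuot rl →ₐ[K] Matrix (Fin 3) (Fin 3) K :=
  RingQuot.liftAlgHom K ⟨UniversalEnvelopingAlgebra.lift K rhoL, by
    rintro a b ⟨x, rfl, rfl⟩
    rw [map_pow, UniversalEnvelopingAlgebra.lift_ι_apply, UniversalEnvelopingAlgebra.lift_ι_apply]
    exact rho_cube x⟩

theorem rhoA_j (x : HL) : rhoA (j x) = rho x := by
  unfold rhoA j
  rw [RingQuot.liftAlgHom_mkAlgHom_apply, UniversalEnvelopingAlgebra.lift_ι_apply]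
  rfl

theorem E0_ne : E0 (j (mk 1 0 0)) (j (mk 0 1 0)) (j (mk 0 0 1)) ≠ 0 := by
  intro h
  have h1 := congrArg rhoA h
  simp only [E0, map_mul, map_add, map_zero, rhoA_j] at h1
  revert h1
  decide

theorem St_phi {n : ℕ} (M : Fin (n + 1) → Matrix (Fin 2) (Fin 2) K) :
    St (n + 1) (fun i => phi rels (M i)) = phi rels (St (n + 1) M) := by
  unfold St
  rw [map_sum]
  refine Finset.sum_congr rfl fun σ _ => ?_
  rw [map_zsmul]
  congr 1
  have : ∀ (m : ℕ) (N : Fin (m + 1) → Matrix (Fin 2) (Fin 2) K),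
      (List.ofFn fun i => phi rels (N i)).prod = phi rels (List.ofFn N).prod := by
    intro m
    induction m with
    | zero => intro N; simp [List.ofFn_succ]
    | succ m ih =>
      intro N
      rw [List.ofFn_succ, List.prod_cons, ih (fun i => N i.succ), ← map_mul]
      rw [List.ofFn_succ (f := N), List.prod_cons]
  exact this n fun i => M (σ i)

/-- The negation of the preceding statement: For every prime p, field F of char p, Lie p-algebra L and PI non-unital subalgebra R of u(L): if n is the least positive integer such that some power of the standard polynomial S_2n vanishes on R, then n is a power of p. -/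
theorem result :
    ¬ (∀ (p : ℕ), p.Prime → ∀ (F : Type) [Field F] [CharP F p] (L : Type) [LieRing L] [LieAlgebra F L]
    (f : L → L),
    (∀ (a : F) (x : L), f (a • x) = a ^ p • f x) →
    (∀ x y : L, (LieAlgebra.ad F L x ^ p) y = ⁅f x, y⁆) →
    (∀ x y : L,
      UniversalEnvelopingAlgebra.ι F (f (x + y)) - UniversalEnvelopingAlgebra.ι F (f x)
        - UniversalEnvelopingAlgebra.ι F (f y)
      = (UniversalEnvelopingAlgebra.ι F x + UniversalEnvelopingAlgebra.ι F y) ^ p
        - UniversalEnvelopingAlgebra.ι F x ^ p - UniversalEnvelopingAlgebra.ι F y ^ p) →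
    ∀ R : NonUnitalSubalgebra F (RingQuot (fun a b : UniversalEnvelopingAlgebra F L =>
        ∃ x : L, a = UniversalEnvelopingAlgebra.ι F x ^ p ∧ b = UniversalEnvelopingAlgebra.ι F (f x))),
    (∃ m : ℕ, ∃ φ : FreeAlgebra F (Fin m), φ ≠ 0 ∧
      ∀ r : Fin m → RingQuot (fun a b : UniversalEnvelopingAlgebra F L =>
        ∃ x : L, a = UniversalEnvelopingAlgebra.ι F x ^ p ∧ b = UniversalEnvelopingAlgebra.ι F (f x)),
        (∀ i, r i ∈ R) → FreeAlgebra.lift F r φ = 0) →
    ∀ n : ℕ, 1 ≤ n →
      (∃ t : ℕ, 1 ≤ t ∧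
        ∀ r : Fin (2 * n) → RingQuot (fun a b : UniversalEnvelopingAlgebra F L =>
          ∃ x : L, a = UniversalEnvelopingAlgebra.ι F x ^ p ∧ b = UniversalEnvelopingAlgebra.ι F (f x)),
          (∀ i, r i ∈ R) →
          (∑ σ : Equiv.Perm (Fin (2 * n)),
            ((Equiv.Perm.sign σ : ℤˣ) : ℤ) • (List.ofFn fun i => r (σ i)).prod) ^ t = 0) →
      (∀ m : ℕ, 1 ≤ m → m < n →
        ¬ ∃ t : ℕ, 1 ≤ t ∧
          ∀ r : Fin (2 * m) → RingQuot (fun a b : UniversalEnvelopingAlgebra F L =>
            ∃ x : L, a = UniversalEnvelopingAlgebra.ι F x ^ p ∧ b = UniversalEnvelopingAlgebra.ι F (f x)),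
            (∀ i, r i ∈ R) →
            (∑ σ : Equiv.Perm (Fin (2 * m)),
              ((Equiv.Perm.sign σ : ℤˣ) : ℤ) • (List.ofFn fun i => r (σ i)).prod) ^ t = 0) →
      ∃ k : ℕ, n = p ^ k) := by
  intro H
  have h2 := H 3 (by norm_num) K HL f f_smul ad_f jac (NonUnitalAlgHom.range (phi rels))
    ⟨4, St 4 (fun i => FreeAlgebra.ι K i), st4_free, ?_⟩ 2 (by norm_num) ?_ ?_
  · obtain ⟨k, hk⟩ := h2
    rcases k with _ | k
    · norm_num at hk
    · rw [pow_succ] at hk
      omega
  · intro r hr
    choose M hM using hr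
    have e : FreeAlgebra.lift K r (St 4 (fun i => FreeAlgebra.ι K i)) = St 4 r := by
      unfold St
      simp only [map_sum, map_zsmul, map_list_prod, List.map_ofFn, Function.comp_def,
        FreeAlgebra.lift_ι_apply]
    rw [e, show r = fun i => phi rels (M i) from funext fun i => (hM i).symm, St_phi (n := 3),
      st4_matrix, map_zero]
  · refine ⟨1, le_rfl, fun r hr => ?_⟩
    rw [pow_one]
    choose M hM using hr
    have e : St 4 r = 0 := by
      rw [show r = fun i => phi rels (M i) from funext fun i => (hM i).symm, St_phi (n := 3),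
        st4_matrix, map_zero]
    exact e
  · intro m hm1 hm2
    obtain rfl : m = 1 := by omega
    rintro ⟨t, ht, h⟩
    set A : Matrix (Fin 2) (Fin 2) K := Matrix.single 0 1 1 with hA
    set C : Matrix (Fin 2) (Fin 2) K := Matrix.single 1 0 1 with hC
    have h1 := h (fun i => phi rels (![A, C] i)) (fun i => ⟨_, rfl⟩)
    have h2 : St 2 (fun i => phi rels (![A, C] i)) ^ t = 0 := h1
    rw [St_phi (n := 1)] at h2
    have h3 : St (1 + 1) ![A, C] = A * C - C * A := st2 _
    rw [h3] at h2
    obtain ⟨s, rfl⟩ : ∃ s, t = s + 1 := ⟨t - 1, by omega⟩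
    have h4 : ∀ s : ℕ, phi rels (A * C - C * A) ^ (s + 1) = phi rels ((A * C - C * A) ^ (s + 1)) := by
      intro s
      induction s with
      | zero => simp
      | succ s ih => rw [pow_succ, ih, ← map_mul, ← pow_succ]
    rw [h4] at h2
    have h5 := phi_inj rels E0_ne _ h2
    have h6 : (A * C - C * A) * (A * C - C * A) = 1 := by
      rw [hA, hC]; decide
    have h7 : (A * C - C * A) ^ (s + 1) * (A * C - C * A) ^ (s + 1) = 1 := by
      rw [← (Commute.refl (A * C - C * A)).mul_pow, h6, one_pow]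
    rw [h5, mul_zero] at h7
    exact zero_ne_one h7

end Pool.Agent.S03052
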