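import Pool.Statements.S03359
import Pool.Agent.Helper556_sys.PropADef

set_option autoImplicit false
open Filter
open Pool Pool.MP_e4602c_al

namespace Pool.Agent.S03359

/-- Every connected graph with no isometric cycle of length at least 4 (the 1-skeleton of a systolic complex) in which each vertex lies in at most N finite cliques coarsely embeds, with its path metric, into a real Hilbert space. -/
theorem result :
    ∀ (V : Type) (G : SimpleGraph V),
      G.Connected →
      (∃ N : ℕ, ∀ v : V, ∀ S : Finset (Finset V),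
          (∀ s ∈ S, v ∈ s ∧ G.IsClique (s : Set V)) → S.card ≤ N) →
      (∀ n : ℕ, 4 ≤ n → ∀ c : Fin n → V,
          ¬ ∀ i j : Fin n,
            G.dist (c i) (c j) =
              min ((i : ℕ) - (j : ℕ) + ((j : ℕ) - (i : ℕ)))
                  (n - ((i : ℕ) - (j : ℕ) + ((j : ℕ) - (i : ℕ))))) →
      ∃ (H : Type) (_ : NormedAddCommGroup H) (_ : InnerProductSpace ℝ H)
        (_ : CompleteSpace H),
        ∃ (f : V → H) (ρm ρp : ℝ → ℝ),
          Monotone ρm ∧ Monotone ρp ∧ Tendsto ρm atTop atTop ∧
          ∀ x y : V,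
            ρm (G.dist x y : ℝ) ≤ ‖f x - f y‖ ∧
            ‖f x - f y‖ ≤ ρp (G.dist x y : ℝ) := by
  intro V G hc hN hcyc
  obtain ⟨N, hN⟩ := hN
  exact Pool.Agent.Helper556_sys.coarse_of_measures hc fun ε hε =>
    Pool.Agent.Helper556_sys.almost_inv
      (Pool.Agent.Helper556_sys.br_of_noIso hc (Pool.Agent.Helper556_sys.noIso_of_fin hcyc))
      (Pool.Agent.Helper556_sys.deg_of_cliques hc hN) hε

end Pool.Agent.S03359
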