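import Pool.Statements.S05106
import Mathlib

/-!
# MP_7987d1_an, Q1 (negated form)

The explicit front of the equation `u_t = u_xx + u - u³` which connects the unstable state `0` (at
`x = -∞`) with the stable state `1` (at `x = +∞`),
`u (x, t) = (1 + exp (- (x / √2 + 3 t / 2)))⁻¹`,
is an eternal classical solution with `0 < u < 1`, `∂u/∂x > 0` and `∂u/∂t > 0`. It depends on `t`.
-/

set_option autoImplicit false
open Pool Pool.MP_7987d1_an

namespace Pool.Agent.S05106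

open Real

/-- the front, in dimension one -/
noncomputable def front (p : EuclideanSpace ℝ (Fin 1) × ℝ) : ℝ :=
  sigmoid ((√2)⁻¹ * p.1 0 + 3 / 2 * p.2)

lemma sq2 : ((√2)⁻¹ : ℝ) ^ 2 = 1 / 2 := by
  rw [inv_pow, Real.sq_sqrt (by norm_num)]
  norm_num

/-- the first coordinate, as a continuous linear map -/
noncomputable def pr : EuclideanSpace ℝ (Fin 1) →L[ℝ] ℝ := EuclideanSpace.proj 0

lemma pr_apply (x : EuclideanSpace ℝ (Fin 1)) : pr x = x 0 := rfl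

lemma hasFDerivAt_front (x : EuclideanSpace ℝ (Fin 1)) (t : ℝ) :
    HasFDerivAt (fun y => front (y, t))
      ((sigmoid ((√2)⁻¹ * x 0 + 3 / 2 * t) * (1 - sigmoid ((√2)⁻¹ * x 0 + 3 / 2 * t)) *
        (√2)⁻¹) • pr) x := by
  have h1 : HasFDerivAt (fun y : EuclideanSpace ℝ (Fin 1) => (√2)⁻¹ * y 0 + 3 / 2 * t)
      ((√2)⁻¹ • pr) x := by
    have := (pr.hasFDerivAt (x := x)).const_mul (√2)⁻¹
    exact this.add_const _
  have h2 := (hasDerivAt_sigmoid ((√2)⁻¹ * x 0 + 3 / 2 * t)).comp_hasFDerivAt x h1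
  rw [smul_smul] at h2
  exact h2

lemma fderiv_front (t : ℝ) :
    fderiv ℝ (fun y => front (y, t)) = fun x =>
      (sigmoid ((√2)⁻¹ * x 0 + 3 / 2 * t) * (1 - sigmoid ((√2)⁻¹ * x 0 + 3 / 2 * t)) *
        (√2)⁻¹) • pr := by
  funext x
  exact (hasFDerivAt_front x t).fderiv

lemma hasFDerivAt_front2 (x : EuclideanSpace ℝ (Fin 1)) (t : ℝ) :
    HasFDerivAt (fun x : EuclideanSpace ℝ (Fin 1) =>
      (sigmoid ((√2)⁻¹ * x 0 + 3 / 2 * t) * (1 - sigmoid ((√2)⁻¹ * x 0 + 3 / 2 * t)) *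
        (√2)⁻¹) • pr)
      ((((sigmoid ((√2)⁻¹ * x 0 + 3 / 2 * t) * (1 - sigmoid ((√2)⁻¹ * x 0 + 3 / 2 * t)) *
        (1 - 2 * sigmoid ((√2)⁻¹ * x 0 + 3 / 2 * t))) * (√2)⁻¹ * (√2)⁻¹) • pr).smulRight pr) x := by
  have h1 : HasFDerivAt (fun y : EuclideanSpace ℝ (Fin 1) => (√2)⁻¹ * y 0 + 3 / 2 * t)
      ((√2)⁻¹ • pr) x := by
    have := (pr.hasFDerivAt (x := x)).const_mul (√2)⁻¹
    exact this.add_const _
  set s := (√2)⁻¹ * x 0 + 3 / 2 * t with hs
  have h2 : HasDerivAt (fun z : ℝ => sigmoid z * (1 - sigmoid z) * (√2)⁻¹)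
      ((sigmoid s * (1 - sigmoid s) * (1 - 2 * sigmoid s)) * (√2)⁻¹) s := by
    have h3 := hasDerivAt_sigmoid s
    have h4 := (h3.mul (h3.const_sub 1)).mul_const (√2)⁻¹
    refine h4.congr_deriv ?_
    ring
  have h5 := h2.comp_hasFDerivAt x h1
  rw [smul_smul] at h5
  exact h5.smul_const pr

lemma contDiff_front : ContDiff ℝ 2 front := by
  have h : ContDiff ℝ 2 sigmoid := by
    unfold sigmoid
    have : ∀ x : ℝ, (1 + rexp (-x)) ≠ 0 := fun x => by positivity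
    exact (contDiff_const.add (contDiff_exp.comp contDiff_neg)).inv this
  unfold front
  apply h.comp
  apply ContDiff.add
  · apply ContDiff.mul contDiff_const
    exact (pr.contDiff).comp contDiff_fst
  · exact contDiff_const.mul contDiff_snd

lemma hasDerivAt_front_t (x : EuclideanSpace ℝ (Fin 1)) (t : ℝ) :
    HasDerivAt (fun s => front (x, s))
      (sigmoid ((√2)⁻¹ * x 0 + 3 / 2 * t) * (1 - sigmoid ((√2)⁻¹ * x 0 + 3 / 2 * t)) *
        (3 / 2)) t := by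
  have h1 : HasDerivAt (fun s : ℝ => (√2)⁻¹ * x 0 + 3 / 2 * s) (3 / 2) t := by
    have := (hasDerivAt_id t).const_mul (3 / 2 : ℝ)
    simpa using this.const_add ((√2)⁻¹ * x 0)
  exact (hasDerivAt_sigmoid _).comp t h1

lemma single_zero (i : Fin 1) : pr (EuclideanSpace.single i (1 : ℝ)) = 1 := by
  rw [pr_apply]
  fin_cases i
  simp

/-- The negation of the preceding statement: For 1≤n≤8, every C² solution of Δu−u_t=u³−u for t<0 with ∣u∣≤1, ∂u/∂x_n>0 and u_t≥0 has the form u(x,t)=g(ν·x) for a unit vector ν, i.e. is one-dimensional and time-independent. -/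
theorem result :
    ¬ (∀ m : ℕ, m + 1 ≤ 8 → ∀ u : EuclideanSpace ℝ (Fin (m + 1)) × ℝ → ℝ,
    ContDiffOn ℝ 2 u {p | p.2 < 0} →
    (∀ x : EuclideanSpace ℝ (Fin (m + 1)), ∀ t : ℝ, t < 0 →
      |u (x, t)| ≤ 1 ∧
      (∑ i : Fin (m + 1), iteratedFDeriv ℝ 2 (fun y => u (y, t)) x
          (fun _ => EuclideanSpace.single i (1 : ℝ)))
        - deriv (fun s => u (x, s)) t = u (x, t) ^ 3 - u (x, t) ∧
      0 < fderiv ℝ (fun y => u (y, t)) x (EuclideanSpace.single (Fin.last m) (1 : ℝ)) ∧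
      0 ≤ deriv (fun s => u (x, s)) t) →
    ∃ ν : EuclideanSpace ℝ (Fin (m + 1)), ‖ν‖ = 1 ∧
      ∃ g : ℝ → ℝ, ∀ x : EuclideanSpace ℝ (Fin (m + 1)), ∀ t : ℝ, t < 0 →
        u (x, t) = g (inner ℝ ν x)) := by
  intro H
  have h2 : (0:ℝ) < (√2)⁻¹ := by positivity
  obtain ⟨ν, -, g, hg⟩ := H 0 (by norm_num) front contDiff_front.contDiffOn (by
    intro x t _
    have hpos := sigmoid_pos ((√2)⁻¹ * x 0 + 3 / 2 * t)
    have hlt := sigmoid_lt_one ((√2)⁻¹ * x 0 + 3 / 2 * t)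
    refine ⟨?_, ?_, ?_, ?_⟩
    · show |sigmoid ((√2)⁻¹ * x 0 + 3 / 2 * t)| ≤ 1
      rw [abs_of_pos hpos]
      exact hlt.le
    · rw [(hasDerivAt_front_t x t).deriv]
      have e : ∀ i : Fin 1, iteratedFDeriv ℝ 2 (fun y => front (y, t)) x
          (fun _ => EuclideanSpace.single i (1 : ℝ)) =
          (sigmoid ((√2)⁻¹ * x 0 + 3 / 2 * t) * (1 - sigmoid ((√2)⁻¹ * x 0 + 3 / 2 * t)) *
            (1 - 2 * sigmoid ((√2)⁻¹ * x 0 + 3 / 2 * t))) * (√2)⁻¹ * (√2)⁻¹ := by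
        intro i
        rw [iteratedFDeriv_two_apply, fderiv_front, (hasFDerivAt_front2 x t).fderiv]
        show (_ * pr (EuclideanSpace.single i (1 : ℝ))) * pr (EuclideanSpace.single i (1 : ℝ)) = _
        rw [single_zero, mul_one, mul_one]
      have e2 : (∑ i : Fin (0 + 1), iteratedFDeriv ℝ 2 (fun y => front (y, t)) x
          (fun _ => EuclideanSpace.single i (1 : ℝ))) =
          (sigmoid ((√2)⁻¹ * x 0 + 3 / 2 * t) * (1 - sigmoid ((√2)⁻¹ * x 0 + 3 / 2 * t)) *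
            (1 - 2 * sigmoid ((√2)⁻¹ * x 0 + 3 / 2 * t))) * (√2)⁻¹ * (√2)⁻¹ := by
        rw [Fin.sum_univ_one]
        exact e 0
      rw [e2]
      show _ = sigmoid ((√2)⁻¹ * x 0 + 3 / 2 * t) ^ 3 - sigmoid ((√2)⁻¹ * x 0 + 3 / 2 * t)
      generalize sigmoid ((√2)⁻¹ * x 0 + 3 / 2 * t) = s
      linear_combination (s * (1 - s) * (1 - 2 * s)) * sq2
    · rw [(hasFDerivAt_front x t).fderiv]
      show 0 < _ * pr (EuclideanSpace.single (Fin.last 0) (1 : ℝ))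
      rw [single_zero, mul_one]
      have : 0 < 1 - sigmoid ((√2)⁻¹ * x 0 + 3 / 2 * t) := by linarith
      positivity
    · rw [(hasDerivAt_front_t x t).deriv]
      have : 0 < 1 - sigmoid ((√2)⁻¹ * x 0 + 3 / 2 * t) := by linarith
      positivity)
  have h3 := hg 0 (-1) (by norm_num)
  have h4 := hg 0 (-2) (by norm_num)
  rw [← h4] at h3
  have h5 := sigmoid_injective h3
  norm_num at h5

end Pool.Agent.S05106
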