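import Pool.Statements.S05242
-- import your own Pool.Agent.* helpers here

set_option autoImplicit false
open Pool Pool.MP_830bfa_an

namespace Pool.Agent.S05242

/-! Counterexample in dimension three.  With `r = √(y² + e^{2z})` the map
`G(x,y,z) = ((1+r) cos x, (1+r) sin x, arsinh (y e^{-z}))` is a real analytic local diffeomorphism which is
`2π`-periodic in `x`, and for `τ = y/r`, `s = sin x` one has
`det (t - G') = t (τ + t) (s (1+r) + t) - (1 + t τ) ((1+r) + s t)`, which has no complex zero with `|t| < 1/4`. -/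

/-- the function `r = √(y² + e^{2z})` -/
noncomputable def rad (v : Fin 3 → ℝ) : ℝ := Real.sqrt ((v 1) ^ 2 + Real.exp (2 * v 2))

/-- the counterexample -/
noncomputable def G (v : Fin 3 → ℝ) : Fin 3 → ℝ :=
  ![(1 + rad v) * Real.cos (v 0), (1 + rad v) * Real.sin (v 0),
    Real.arsinh (v 1 * Real.exp (-(v 2)))]

theorem arg_pos (v : Fin 3 → ℝ) : 0 < (v 1) ^ 2 + Real.exp (2 * v 2) := by
  have := Real.exp_pos (2 * v 2)
  positivity

theorem rad_pos (v : Fin 3 → ℝ) : 0 < rad v := Real.sqrt_pos.2 (arg_pos v)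

theorem rad_sq (v : Fin 3 → ℝ) : rad v ^ 2 = (v 1) ^ 2 + Real.exp (2 * v 2) :=
  Real.sq_sqrt (arg_pos v).le

theorem contDiff_coord (i : Fin 3) : ContDiff ℝ 1 (fun v : Fin 3 → ℝ => v i) :=
  contDiff_apply ℝ ℝ i

theorem contDiff_rad : ContDiff ℝ 1 rad := by
  unfold rad
  apply ContDiff.sqrt
  · exact ((contDiff_coord 1).pow 2).add (Real.contDiff_exp.comp (contDiff_const.mul (contDiff_coord 2)))
  · intro v
    exact (arg_pos v).ne'

theorem contDiff_G : ContDiff ℝ 1 G := by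
  rw [contDiff_pi]
  intro i
  fin_cases i
  · exact (contDiff_const.add contDiff_rad).mul (Real.contDiff_cos.comp (contDiff_coord 0))
  · exact (contDiff_const.add contDiff_rad).mul (Real.contDiff_sin.comp (contDiff_coord 0))
  · exact ((contDiff_coord 1).mul (Real.contDiff_exp.comp (contDiff_coord 2).neg)).arsinh

/-- the Jacobian matrix -/
noncomputable def J (v : Fin 3 → ℝ) : Matrix (Fin 3) (Fin 3) ℝ :=
  !![-(1 + rad v) * Real.sin (v 0), (v 1 / rad v) * Real.cos (v 0),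
      (Real.exp (2 * v 2) / rad v) * Real.cos (v 0);
     (1 + rad v) * Real.cos (v 0), (v 1 / rad v) * Real.sin (v 0),
      (Real.exp (2 * v 2) / rad v) * Real.sin (v 0);
     0, 1 / rad v, -(v 1 / rad v)]

theorem hasFDerivAt_coord (i : Fin 3) (v : Fin 3 → ℝ) :
    HasFDerivAt (fun v : Fin 3 → ℝ => v i)
      (ContinuousLinearMap.proj (R := ℝ) (φ := fun _ : Fin 3 => ℝ) i) v :=
  (ContinuousLinearMap.proj (R := ℝ) (φ := fun _ : Fin 3 => ℝ) i).hasFDerivAt

theorem fderiv_rad (v : Fin 3 → ℝ) :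
    HasFDerivAt rad ((v 1 / rad v) • ContinuousLinearMap.proj (R := ℝ) (φ := fun _ : Fin 3 => ℝ) 1
      + (Real.exp (2 * v 2) / rad v) • ContinuousLinearMap.proj (R := ℝ) (φ := fun _ : Fin 3 => ℝ) 2) v := by
  have h1 := ((hasFDerivAt_coord 1 v).pow 2).add (((hasFDerivAt_coord 2 v).const_mul 2).exp)
  have h2 := h1.sqrt (arg_pos v).ne'
  have hr := (rad_pos v).ne'
  refine h2.congr_fderiv ?_
  ext w
  simp [rad]
  have hr' : Real.sqrt ((v 1) ^ 2 + Real.exp (2 * v 2)) ≠ 0 := hr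
  field_simp

theorem fderiv_G (v : Fin 3 → ℝ) :
    HasFDerivAt G (Matrix.toLin' (J v)).toContinuousLinearMap v := by
  rw [hasFDerivAt_pi']
  intro i
  have hr := rad_pos v
  fin_cases i
  · have h := ((fderiv_rad v).const_add 1).mul (hasFDerivAt_coord 0 v).cos
    refine h.congr_fderiv ?_
    ext w
    simp [J, dotProduct, Fin.sum_univ_three]
    ring
  · have h := ((fderiv_rad v).const_add 1).mul (hasFDerivAt_coord 0 v).sin
    refine h.congr_fderiv ?_
    ext w
    simp [J, dotProduct, Fin.sum_univ_three]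
    ring
  · have h := ((hasFDerivAt_coord 1 v).mul ((hasFDerivAt_coord 2 v).neg.exp)).arsinh
    refine h.congr_fderiv ?_
    have hs : Real.sqrt (1 + (v 1 * Real.exp (-(v 2))) ^ 2) = rad v * Real.exp (-(v 2)) := by
      rw [Real.sqrt_eq_iff_mul_self_eq (by positivity) (by positivity)]
      have h2 : Real.exp (2 * v 2) * (Real.exp (-(v 2)) * Real.exp (-(v 2))) = 1 := by
        rw [← Real.exp_add, ← Real.exp_add]
        simp
        ring
      have h3 := rad_sq v
      have h4 : rad v * Real.exp (-(v 2)) * (rad v * Real.exp (-(v 2)))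
          = rad v ^ 2 * (Real.exp (-(v 2)) * Real.exp (-(v 2))) := by ring
      rw [h4, h3]
      linear_combination -h2
    have he : Real.exp (-(v 2)) ≠ 0 := (Real.exp_pos _).ne'
    ext w
    simp [J, dotProduct, Fin.sum_univ_three, hs]
    field_simp
    ring

theorem toMatrix_fderiv (v : Fin 3 → ℝ) :
    LinearMap.toMatrix' ((fderiv ℝ G v : (Fin 3 → ℝ) →L[ℝ] (Fin 3 → ℝ)) :
      (Fin 3 → ℝ) →ₗ[ℝ] (Fin 3 → ℝ)) = J v := by
  rw [(fderiv_G v).fderiv]
  simp

theorem tau_sq (v : Fin 3 → ℝ) :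
    (v 1 / rad v) * (v 1 / rad v) + (Real.exp (2 * v 2) / rad v) * (1 / rad v) = 1 := by
  have hr := (rad_pos v).ne'
  have h := rad_sq v
  field_simp
  linarith

theorem det_J (v : Fin 3 → ℝ) : (J v).det = 1 + rad v := by
  have h1 := tau_sq v
  have h2 := Real.sin_sq_add_cos_sq (v 0)
  rw [Matrix.det_fin_three]
  simp only [J, Matrix.of_apply, Matrix.cons_val', Matrix.cons_val_zero, Matrix.cons_val_one,
    Matrix.cons_val]
  generalize v 1 / rad v = t at *
  generalize Real.exp (2 * v 2) / rad v = q at *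
  generalize 1 / rad v = p at *
  generalize Real.sin (v 0) = s at *
  generalize Real.cos (v 0) = c at *
  generalize rad v = r at *
  linear_combination (1 + r) * (s ^ 2 + c ^ 2) * h1 + (1 + r) * h2

/-- the characteristic polynomial at a complex number -/
theorem charpoly_J (v : Fin 3 → ℝ) (z : ℂ) :
    Polynomial.aeval z (J v).charpoly
      = z * (((v 1 / rad v : ℝ) : ℂ) + z) * (((Real.sin (v 0) : ℝ) : ℂ) * ((1 + rad v : ℝ) : ℂ) + z)
        - (1 + z * ((v 1 / rad v : ℝ) : ℂ)) * (((1 + rad v : ℝ) : ℂ) + ((Real.sin (v 0) : ℝ) : ℂ) * z) := by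
  have h1 : (((v 1 / rad v : ℝ) : ℂ)) * ((v 1 / rad v : ℝ) : ℂ)
      + ((Real.exp (2 * v 2) / rad v : ℝ) : ℂ) * ((1 / rad v : ℝ) : ℂ) = 1 := by
    exact_mod_cast tau_sq v
  have h2 : ((Real.sin (v 0) : ℝ) : ℂ) ^ 2 + ((Real.cos (v 0) : ℝ) : ℂ) ^ 2 = 1 := by
    exact_mod_cast Real.sin_sq_add_cos_sq (v 0)
  have h3 : Polynomial.aeval z (J v).charpoly = (((J v).map (algebraMap ℝ ℂ)).charpoly).eval z := by
    rw [Matrix.charpoly_map, Polynomial.eval_map, Polynomial.aeval_def]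
  rw [h3, Matrix.eval_charpoly, Matrix.det_fin_three]
  simp only [J, Matrix.sub_apply, Matrix.map_apply, Matrix.scalar_apply, Matrix.diagonal_apply,
    Matrix.of_apply, Matrix.cons_val', Matrix.cons_val_zero, Matrix.cons_val_one,
    Matrix.cons_val, Complex.coe_algebraMap]
  simp only [Complex.ofReal_mul, Complex.ofReal_neg, Complex.ofReal_zero]
  generalize ((v 1 / rad v : ℝ) : ℂ) = t at *
  generalize ((Real.exp (2 * v 2) / rad v : ℝ) : ℂ) = q at *
  generalize ((1 / rad v : ℝ) : ℂ) = p at *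
  generalize ((Real.sin (v 0) : ℝ) : ℂ) = s at *
  generalize ((Real.cos (v 0) : ℝ) : ℂ) = c at *
  generalize ((1 + rad v : ℝ) : ℂ) = r at *
  simp
  linear_combination (r * (-(t * t + q * p) - t * z)) * h2 - (r + s * z) * h1

theorem abs_tau_le (v : Fin 3 → ℝ) : |v 1 / rad v| ≤ 1 := by
  rw [abs_div, abs_of_pos (rad_pos v), div_le_one (rad_pos v)]
  apply abs_le_of_sq_le_sq _ (rad_pos v).le
  rw [rad_sq]
  have := Real.exp_pos (2 * v 2)
  linarith

theorem spectrum_bound (v : Fin 3 → ℝ) (z : ℂ)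
    (hz : Polynomial.aeval z (J v).charpoly = 0) : (1 / 4 : ℝ) ≤ ‖z‖ := by
  by_contra hlt
  push Not at hlt
  rw [charpoly_J] at hz
  set t : ℂ := ((v 1 / rad v : ℝ) : ℂ) with ht
  set s : ℂ := ((Real.sin (v 0) : ℝ) : ℂ) with hs
  set r : ℂ := ((1 + rad v : ℝ) : ℂ) with hr
  have h1 : ‖t‖ ≤ 1 := by
    rw [ht, Complex.norm_real]
    exact abs_tau_le v
  have h2 : ‖s‖ ≤ 1 := by
    rw [hs, Complex.norm_real]
    exact Real.abs_sin_le_one _
  have h3 : ‖r‖ = 1 + rad v := by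
    rw [hr, Complex.norm_real]
    exact abs_of_pos (by linarith [rad_pos v])
  have hR : 1 ≤ ‖r‖ := by
    rw [h3]
    linarith [rad_pos v]
  have hz0 := norm_nonneg z
  have h4 : ‖(1 + z * t) * (r + s * z)‖ = ‖z * (t + z) * (s * r + z)‖ := by
    rw [sub_eq_zero] at hz
    rw [hz]
  rw [norm_mul, norm_mul, norm_mul] at h4
  have a1 : 3 / 4 ≤ ‖1 + z * t‖ := by
    have h : ‖(1 : ℂ)‖ ≤ ‖1 + z * t‖ + ‖z * t‖ := by
      calc ‖(1 : ℂ)‖ = ‖(1 + z * t) - z * t‖ := by ring_nf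
        _ ≤ _ := norm_sub_le _ _
    have h' : ‖z * t‖ ≤ 1 / 4 := by
      rw [norm_mul]
      nlinarith [norm_nonneg t]
    rw [norm_one] at h
    linarith
  have a2 : 3 / 4 * ‖r‖ ≤ ‖r + s * z‖ := by
    have h : ‖r‖ ≤ ‖r + s * z‖ + ‖s * z‖ := by
      calc ‖r‖ = ‖(r + s * z) - s * z‖ := by ring_nf
        _ ≤ _ := norm_sub_le _ _
    have h' : ‖s * z‖ ≤ 1 / 4 := by
      rw [norm_mul]
      nlinarith [norm_nonneg s]
    linarith
  have a3 : ‖t + z‖ ≤ 5 / 4 := by
    have := norm_add_le t z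
    linarith
  have a4 : ‖s * r + z‖ ≤ 5 / 4 * ‖r‖ := by
    have h := norm_add_le (s * r) z
    rw [norm_mul] at h
    nlinarith [norm_nonneg r, norm_nonneg s]
  have b1 : 9 / 16 * ‖r‖ ≤ ‖1 + z * t‖ * ‖r + s * z‖ := by
    calc 9 / 16 * ‖r‖ = (3 / 4) * (3 / 4 * ‖r‖) := by ring
      _ ≤ _ := mul_le_mul a1 a2 (by positivity) (by positivity)
  have b2 : ‖z‖ * ‖t + z‖ * ‖s * r + z‖ ≤ 25 / 64 * ‖r‖ := by
    calc ‖z‖ * ‖t + z‖ * ‖s * r + z‖ ≤ (1 / 4) * (5 / 4) * (5 / 4 * ‖r‖) := by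
          apply mul_le_mul _ a4 (by positivity) (by positivity)
          exact mul_le_mul hlt.le a3 (by positivity) (by positivity)
      _ = _ := by ring
  linarith

theorem not_injective : ¬ Function.Injective G := by
  intro h
  have h1 : G ![0, 0, 0] = G ![2 * Real.pi, 0, 0] := by
    ext i
    fin_cases i <;> simp [G, rad]
  have h2 := congrFun (h h1) 0
  simp at h2

/-- The negation of the preceding statement: For every n ≥ 2, a C¹ map f from ℝⁿ to ℝⁿ whose Jacobian is everywhere invertible, with every complex eigenvalue of every Jacobian of modulus at least some fixed ε > 0, is injective. -/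
theorem result :
    ¬ (∀ n : ℕ, 2 ≤ n → ∀ f : (Fin n → ℝ) → (Fin n → ℝ), ContDiff ℝ 1 f →
      (∀ x : Fin n → ℝ,
        (LinearMap.toMatrix' ((fderiv ℝ f x : (Fin n → ℝ) →L[ℝ] (Fin n → ℝ)) :
          (Fin n → ℝ) →ₗ[ℝ] (Fin n → ℝ))).det ≠ 0) →
      (∃ ε : ℝ, 0 < ε ∧ ∀ x : Fin n → ℝ, ∀ z : ℂ,
        Polynomial.aeval z
          (LinearMap.toMatrix' ((fderiv ℝ f x : (Fin n → ℝ) →L[ℝ] (Fin n → ℝ)) :
            (Fin n → ℝ) →ₗ[ℝ] (Fin n → ℝ))).charpoly = 0 → ε ≤ ‖z‖) →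
      Function.Injective f) := by
  intro h
  refine not_injective (h 3 (by norm_num) G contDiff_G ?_ ⟨1 / 4, by norm_num, ?_⟩)
  · intro x
    rw [toMatrix_fderiv, det_J]
    linarith [rad_pos x]
  · intro x z hz
    rw [toMatrix_fderiv] at hz
    exact spectrum_bound x z hz

end Pool.Agent.S05242
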