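import Pool.Statements.S05466
import Pool.Agent.Helper26K1.Gas.Wave

set_option autoImplicit false
open MeasureTheory Filter Topology
open Pool Pool.MP_95eb0c_an

namespace Pool.Agent.S05466

open Pool.Agent.Helper26K1.Gas

/-- An integral over the upper half plane of a function vanishing outside it. -/
lemma half_eq (F : ℝ × ℝ → ℝ) (h : ∀ z, ¬ 0 < z.2 → F z = 0) :
    ∫ z in {z : ℝ × ℝ | 0 < z.2}, F z = ∫ z, F z :=
  setIntegral_eq_integral_of_forall_compl_eq_zero h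

lemma fderiv_out (φ : ℝ × ℝ → ℝ) (hs : tsupport φ ⊆ {z : ℝ × ℝ | 0 < z.2}) (z : ℝ × ℝ)
    (hz : ¬ 0 < z.2) : fderiv ℝ φ z = 0 := by
  have h1 : z ∉ tsupport φ := fun h => hz (hs h)
  have h2 : z ∉ Function.support (fderiv ℝ φ) := fun h =>
    h1 (support_fderiv_subset (𝕜 := ℝ) h)
  simpa using h2

lemma basic (n : ℕ) (φ : ℝ × ℝ → ℝ) (hφ : ContDiff ℝ ((⊤ : ℕ∞) : WithTop ℕ∞) φ)
    (hc : HasCompactSupport φ) (hs : tsupport φ ⊆ {z : ℝ × ℝ | 0 < z.2}) (a b c : ℝ) :
    ∫ z in {z : ℝ × ℝ | 0 < z.2}, ((a + c * w n z) * fderiv ℝ φ z (0, 1)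
      + (b + c * w n z) * fderiv ℝ φ z (1, 0)) = 0 := by
  rw [half_eq _ (by
    intro z hz
    rw [fderiv_out φ hs z hz]
    simp)]
  obtain ⟨i1, h1⟩ := int_zero (fun _ => (1 : ℝ)) measurable_const 1 (by simp) (0, 1)
    (by simp) φ hφ hc
  obtain ⟨i2, h2⟩ := int_zero (fun _ => (1 : ℝ)) measurable_const 1 (by simp) (1, 0)
    (by simp) φ hφ hc
  obtain ⟨i3, h3⟩ := int_zero (w n) (w_meas n) (1 / 2) (fun z => (w_abs n z).le) (1, 1)
    (w_shift n) φ hφ hc
  have e : (fun z => (a + c * w n z) * fderiv ℝ φ z (0, 1)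
      + (b + c * w n z) * fderiv ℝ φ z (1, 0))
      = fun z => a * (1 * fderiv ℝ φ z (0, 1)) + b * (1 * fderiv ℝ φ z (1, 0))
        + c * (w n z * fderiv ℝ φ z (1, 1)) := by
    funext z
    have : fderiv ℝ φ z (1, 1) = fderiv ℝ φ z (1, 0) + fderiv ℝ φ z (0, 1) := by
      rw [← map_add]; simp
    rw [this]; ring
  have i12 : Integrable (fun z => a * (1 * fderiv ℝ φ z (0, 1)) + b * (1 * fderiv ℝ φ z (1, 0))) :=
    (i1.const_mul a).add (i2.const_mul b)
  rw [e, integral_add i12 (i3.const_mul c),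
    integral_add (i1.const_mul a) (i2.const_mul b), integral_const_mul a,
    integral_const_mul b, integral_const_mul c, h1, h2, h3]
  simp

lemma weak (a c : ℝ) (g : ℝ × ℝ → ℝ)
    (hg : Integrable g (volume.restrict {z : ℝ × ℝ | 0 < z.2})) :
    Tendsto (fun n => ∫ z in {z : ℝ × ℝ | 0 < z.2}, (a + c * w n z) * g z) atTop
        (𝓝 (∫ z in {z : ℝ × ℝ | 0 < z.2}, a * g z)) := by
  have hS : MeasurableSet {z : ℝ × ℝ | 0 < z.2} := measurableSet_lt measurable_const measurable_snd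
  have hG : Integrable ({z : ℝ × ℝ | 0 < z.2}.indicator g) := by
    rw [integrable_indicator_iff hS]; exact hg
  have h1 := w_weak _ hG
  have h2 : ∀ n, ∫ z in {z : ℝ × ℝ | 0 < z.2}, (a + c * w n z) * g z
      = (∫ z in {z : ℝ × ℝ | 0 < z.2}, a * g z)
        + c * ∫ z, w n z * {z : ℝ × ℝ | 0 < z.2}.indicator g z := by
    intro n
    have e1 : ∫ z, w n z * {z : ℝ × ℝ | 0 < z.2}.indicator g z
        = ∫ z in {z : ℝ × ℝ | 0 < z.2}, w n z * g z := by
      rw [← integral_indicator hS]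
      refine integral_congr_ae (Eventually.of_forall fun z => ?_)
      by_cases hz : z ∈ {z : ℝ × ℝ | 0 < z.2}
      · simp only [Set.indicator_of_mem hz]
      · simp only [Set.indicator_of_notMem hz, mul_zero]
    have i1 : Integrable (fun z => w n z * g z) (volume.restrict {z : ℝ × ℝ | 0 < z.2}) := by
      refine Integrable.bdd_mul (c := 1 / 2) hg (w_meas n).aestronglyMeasurable ?_
      exact Eventually.of_forall fun z => by rw [Real.norm_eq_abs, w_abs]
    rw [e1, ← integral_const_mul, ← integral_add (hg.const_mul a) (i1.const_mul c)]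
    refine integral_congr_ae (Eventually.of_forall fun z => ?_)
    simp only
    ring
  simp_rw [h2]
  have := (h1.const_mul c).const_add (∫ z in {z : ℝ × ℝ | 0 < z.2}, a * g z)
  simpa using this

/-- The negation of the preceding statement: For ideal gas γ>1, any sequence of bounded weak solutions of 1D Lagrangian gas dynamics on t>0 with uniform bounds τ,p bounded away from 0 and ∣v∣≤V, converging weak-* in L^∞, has velocity and pressure converging in L¹ on every compact subset. -/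
theorem result :
    ¬ (∀ (γ : ℝ), 1 < γ →
  ∀ (τe ve pe : ℕ → ℝ × ℝ → ℝ) (τ v p : ℝ × ℝ → ℝ) (τm τM pm pM V : ℝ),
  0 < τm → τm ≤ τM → 0 < pm → pm ≤ pM →
  (∀ n, AEStronglyMeasurable (τe n) (volume.restrict {z : ℝ × ℝ | 0 < z.2}) ∧
        AEStronglyMeasurable (ve n) (volume.restrict {z : ℝ × ℝ | 0 < z.2}) ∧
        AEStronglyMeasurable (pe n) (volume.restrict {z : ℝ × ℝ | 0 < z.2})) →
  (∀ n, ∀ᵐ z ∂(volume.restrict {z : ℝ × ℝ | 0 < z.2}),
        τm ≤ τe n z ∧ τe n z ≤ τM ∧ pm ≤ pe n z ∧ pe n z ≤ pM ∧ |ve n z| ≤ V) →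
  (∀ n, ∀ φ : ℝ × ℝ → ℝ, ContDiff ℝ ((⊤ : ℕ∞) : WithTop ℕ∞) φ → HasCompactSupport φ →
      tsupport φ ⊆ {z : ℝ × ℝ | 0 < z.2} →
      (∫ z in {z : ℝ × ℝ | 0 < z.2},
          (τe n z * fderiv ℝ φ z (0, 1) - ve n z * fderiv ℝ φ z (1, 0))) = 0 ∧
      (∫ z in {z : ℝ × ℝ | 0 < z.2},
          (ve n z * fderiv ℝ φ z (0, 1) + pe n z * fderiv ℝ φ z (1, 0))) = 0 ∧
      (∫ z in {z : ℝ × ℝ | 0 < z.2},
          ((ve n z ^ 2 / 2 + pe n z * τe n z / (γ - 1)) * fderiv ℝ φ z (0, 1)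
            + pe n z * ve n z * fderiv ℝ φ z (1, 0))) = 0) →
  AEStronglyMeasurable τ (volume.restrict {z : ℝ × ℝ | 0 < z.2}) →
  AEStronglyMeasurable v (volume.restrict {z : ℝ × ℝ | 0 < z.2}) →
  AEStronglyMeasurable p (volume.restrict {z : ℝ × ℝ | 0 < z.2}) →
  (∃ C : ℝ, ∀ᵐ z ∂(volume.restrict {z : ℝ × ℝ | 0 < z.2}),
      |τ z| ≤ C ∧ |v z| ≤ C ∧ |p z| ≤ C) →
  (∀ g : ℝ × ℝ → ℝ, Integrable g (volume.restrict {z : ℝ × ℝ | 0 < z.2}) →
      Tendsto (fun n => ∫ z in {z : ℝ × ℝ | 0 < z.2}, τe n z * g z) atTop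
        (𝓝 (∫ z in {z : ℝ × ℝ | 0 < z.2}, τ z * g z)) ∧
      Tendsto (fun n => ∫ z in {z : ℝ × ℝ | 0 < z.2}, ve n z * g z) atTop
        (𝓝 (∫ z in {z : ℝ × ℝ | 0 < z.2}, v z * g z)) ∧
      Tendsto (fun n => ∫ z in {z : ℝ × ℝ | 0 < z.2}, pe n z * g z) atTop
        (𝓝 (∫ z in {z : ℝ × ℝ | 0 < z.2}, p z * g z))) →
  ∀ K : Set (ℝ × ℝ), IsCompact K → K ⊆ {z : ℝ × ℝ | 0 < z.2} →
    Tendsto (fun n => ∫ z in K, |ve n z - v z|) atTop (𝓝 0) ∧
    Tendsto (fun n => ∫ z in K, |pe n z - p z|) atTop (𝓝 0)) := by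
  intro H
  have hm : ∀ a c : ℝ, ∀ n, AEStronglyMeasurable (fun z => a + c * w n z)
      (volume.restrict {z : ℝ × ℝ | 0 < z.2}) := fun a c n =>
    ((measurable_const.add (measurable_const.mul (w_meas n))).aestronglyMeasurable)
  have H1 := H 2 (by norm_num) (fun n z => 3 / 2 + 1 * w n z) (fun n z => -(3 / 2) + (-1) * w n z)
    (fun n z => 3 / 4 + (-1) * w n z) (fun _ => 3 / 2) (fun _ => -(3 / 2)) (fun _ => 3 / 4)
    1 2 (1 / 4) (5 / 4) 2 (by norm_num) (by norm_num) (by norm_num) (by norm_num)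
    (fun n => ⟨hm _ _ n, hm _ _ n, hm _ _ n⟩)
    (by
      intro n
      refine Eventually.of_forall fun z => ?_
      rcases w_cases n z with h | h <;> simp only [h] <;>
        refine ⟨by norm_num, by norm_num, by norm_num, by norm_num, ?_⟩ <;>
        rw [abs_le] <;> constructor <;> norm_num)
    (by
      intro n φ hφ hc hs
      refine ⟨?_, ?_, ?_⟩
      · refine Eq.trans ?_ (basic n φ hφ hc hs (3 / 2) (3 / 2) 1)
        refine integral_congr_ae (Eventually.of_forall fun z => ?_)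
        simp only
        ring
      · exact basic n φ hφ hc hs (-(3 / 2)) (3 / 4) (-1)
      · refine Eq.trans ?_ (basic n φ hφ hc hs (17 / 8) (-(7 / 8)) (3 / 4))
        refine integral_congr_ae (Eventually.of_forall fun z => ?_)
        simp only
        have hw := w_mul n z
        have e1 : ((-(3 / 2) + (-1) * w n z) ^ 2 / 2
            + (3 / 4 + (-1) * w n z) * (3 / 2 + 1 * w n z) / (2 - 1))
            = 17 / 8 + 3 / 4 * w n z := by
          have : (-(3 / 2) + (-1) * w n z) ^ 2 / 2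
            + (3 / 4 + (-1) * w n z) * (3 / 2 + 1 * w n z) / (2 - 1)
            = 9 / 4 + 3 / 4 * w n z - (w n z * w n z) / 2 := by ring
          rw [this, hw]; ring
        have e2 : (3 / 4 + (-1) * w n z) * (-(3 / 2) + (-1) * w n z)
            = -(7 / 8) + 3 / 4 * w n z := by
          have : (3 / 4 + (-1) * w n z) * (-(3 / 2) + (-1) * w n z)
            = -(9 / 8) + 3 / 4 * w n z + w n z * w n z := by ring
          rw [this, hw]; ring
        rw [e1, e2])
    aestronglyMeasurable_const aestronglyMeasurable_const aestronglyMeasurable_const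
    ⟨2, Eventually.of_forall fun z => by
      refine ⟨?_, ?_, ?_⟩ <;> rw [abs_le] <;> constructor <;> norm_num⟩
    (fun g hg => ⟨weak _ _ g hg, weak _ _ g hg, weak _ _ g hg⟩)
    (Set.Icc 0 1 ×ˢ Set.Icc 1 2) (isCompact_Icc.prod isCompact_Icc)
    (by
      rintro z ⟨_, hz⟩
      exact lt_of_lt_of_le one_pos hz.1)
  have H2 := H1.1
  have e : ∀ n : ℕ, ∫ z in (Set.Icc 0 1 ×ˢ Set.Icc 1 2 : Set (ℝ × ℝ)),
      |-(3 / 2) + (-1) * w n z - -(3 / 2)| = 1 / 2 := by
    intro n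
    have : ∀ z, |-(3 / 2) + (-1) * w n z - -(3 / 2)| = 1 / 2 := by
      intro z
      have : -(3 / 2) + (-1) * w n z - -(3 / 2) = - w n z := by ring
      rw [this, abs_neg, w_abs]
    simp_rw [this]
    rw [setIntegral_const]
    have : (volume : Measure (ℝ × ℝ)).real (Set.Icc 0 1 ×ˢ Set.Icc 1 2) = 1 := by
      rw [Measure.real, Measure.volume_eq_prod, Measure.prod_prod]
      simp
      norm_num
    rw [this]
    simp
  simp only [e] at H2
  have := tendsto_nhds_unique H2 tendsto_const_nhds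
  norm_num at this

end Pool.Agent.S05466
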