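import Pool.Statements.S07091
import Pool.Agent.Lead.Halves

set_option autoImplicit false
open Pool Pool.MP_0a407b_co

namespace Pool.Agent.S07091

open Finset Classical Pool.Agent.Lead.Halves in
/-- For every c>0 and k there are ε>0 and N so that any graph on n≥N vertices with ⌊cn²⌋ edges, in which every ⌊n/2⌋-vertex set spans at least (1−ε)c(n/2)² edges, contains a k-clique. -/
theorem result :
    ∀ c : ℝ, 0 < c → ∀ k : ℕ, ∃ ε : ℝ, 0 < ε ∧ ∃ N : ℕ, ∀ n : ℕ, N ≤ n →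
      ∀ G : SimpleGraph (Fin n),
        G.edgeSet.ncard = ⌊c * (n : ℝ) ^ 2⌋₊ →
        (∀ W : Finset (Fin n), W.card = n / 2 →
          (1 - ε) * c * ((n : ℝ) / 2) ^ 2 ≤
            (({e : Sym2 (Fin n) | e ∈ G.edgeSet ∧ ∀ v ∈ e, v ∈ W}).ncard : ℝ)) →
        ∃ s : Finset (Fin n), G.IsNClique k s := by
  intro c hc k
  set d : ℝ := min c 1 with hd
  have hd0 : 0 < d := lt_min hc one_pos
  have hd1 : d ≤ 1 := min_le_right _ _
  have hdc : d ≤ c := min_le_left _ _
  set τ : ℝ := d ^ k / 3 with hτ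
  have hτ0 : 0 < τ := by positivity
  refine ⟨τ ^ 2 / 2, by positivity, 2, ?_⟩
  intro n hn G hm hW
  have hn0 : (2 : ℝ) ≤ n := by exact_mod_cast hn
  have hnpos : (0 : ℝ) < n := by linarith
  have hcard : Fintype.card (Fin n) = n := Fintype.card_fin n
  set B : ℝ := (1 - τ ^ 2 / 2) * c * (n : ℝ) ^ 2 / 2 with hB
  have hWB : ∀ W : Finset (Fin n), W.card = Fintype.card (Fin n) / 2 → B ≤ E G W W := by
    intro W hWc
    rw [hcard] at hWc
    rw [E_self]
    have := hW W hWc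
    rw [hB]
    nlinarith
  -- total number of edges
  have hT : E G univ univ ≤ 2 * c * (n : ℝ) ^ 2 := by
    rw [E_self]
    have h1 : {e : Sym2 (Fin n) | e ∈ G.edgeSet ∧ ∀ v ∈ e, v ∈ (univ : Finset (Fin n))} =
        G.edgeSet := by
      ext e; simp
    rw [h1, hm]
    have := Nat.floor_le (show 0 ≤ c * (n : ℝ) ^ 2 by positivity)
    linarith
  have hE : ∀ U : Finset (Fin n), U.card ≤ n / 2 → τ * n ≤ U.card →
      d * (U.card : ℝ) ^ 2 ≤ E G U U := by
    intro U hU hτU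
    have h1 := dense G B (by rw [hcard]; exact hn) hWB U (by rw [hcard]; exact hU)
    rw [hcard] at h1
    set a : ℝ := (U.card : ℝ) with ha
    have ha0 : 0 ≤ a := Nat.cast_nonneg _
    have han : 2 * a ≤ n := by
      have : 2 * U.card ≤ n := by omega
      rw [ha]; exact_mod_cast this
    have h2 : ((n : ℝ) - 2 * a) * n * E G univ univ ≤ (n - 2 * a) * n * (2 * c * (n : ℝ) ^ 2) :=
      mul_le_mul_of_nonneg_left hT (mul_nonneg (by linarith) hnpos.le)
    have h3 : 4 * ((n : ℝ) - a) ^ 2 * B - (n - 2 * a) * n * (2 * c * (n : ℝ) ^ 2) ≤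
        (n : ℝ) ^ 2 * E G U U := by linarith
    have h4 : 4 * ((n : ℝ) - a) ^ 2 * B - (n - 2 * a) * n * (2 * c * (n : ℝ) ^ 2) =
        (n : ℝ) ^ 2 * (2 * c * (a ^ 2 - τ ^ 2 / 2 * (n - a) ^ 2)) := by
      rw [hB]; ring
    rw [h4] at h3
    have h5 : 2 * c * (a ^ 2 - τ ^ 2 / 2 * (n - a) ^ 2) ≤ E G U U :=
      le_of_mul_le_mul_left h3 (by positivity)
    have h6 : τ ^ 2 * (n - a) ^ 2 ≤ a ^ 2 := by
      rw [← mul_pow]
      apply pow_le_pow_left₀ (mul_nonneg hτ0.le (by linarith))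
      nlinarith
    have h7 : d * a ^ 2 ≤ c * a ^ 2 := by gcongr
    nlinarith
  -- a set of size n / 2
  obtain ⟨U, -, hUc⟩ := Finset.exists_subset_card_eq
    (show n / 2 ≤ (univ : Finset (Fin n)).card by rw [card_univ, hcard]; omega)
  obtain ⟨s, -, hs⟩ := clique G d (τ * n) hd0 hd1 (by positivity) (n / 2) hE k U hUc.le (by
    rw [hUc, hτ]
    have h8 : (n : ℝ) ≤ 3 * ((n / 2 : ℕ) : ℝ) := by
      have : n ≤ 3 * (n / 2) := by omega
      exact_mod_cast this
    have h9 : 0 < d ^ k := by positivity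
    nlinarith)
  exact ⟨s, hs⟩

end Pool.Agent.S07091
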