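import Pool.Statements.S07874
import Pool.Agent.Results.MP_2d87f2_co.Blowup

set_option autoImplicit false
open Pool Pool.MP_2d87f2_co

namespace Pool.Agent.S07874

open Pool.Agent.Results.MP_2d87f2_co.Blowup

/-- The number of edges leaving `A` is the number of ordered pairs `(u, v)` with `u` in `A`,
`v` outside `A` and `u` adjacent to `v`. -/
theorem ncard_edgeBoundary {V : Type} (G : SimpleGraph V) (A : Finset V) :
    (edgeBoundary G A).ncard =
      Set.ncard {p : V × V | p.1 ∈ A ∧ p.2 ∉ A ∧ G.Adj p.1 p.2} := by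
  symm
  refine Set.ncard_congr (fun p _ => s(p.1, p.2)) ?_ ?_ ?_
  · rintro ⟨u, v⟩ ⟨hu, hv, h⟩
    exact ⟨h, u, hu, v, hv, rfl⟩
  · rintro ⟨u, v⟩ ⟨u', v'⟩ ⟨hu, hv, h⟩ ⟨hu', hv', h'⟩ he
    simp only [Sym2.eq_iff] at he
    rcases he with ⟨h1, h2⟩ | ⟨h1, h2⟩
    · simp [h1, h2]
    · exact absurd (h1 ▸ hu) hv'
  · rintro e ⟨he, u, hu, v, hv, rfl⟩
    exact ⟨(u, v), ⟨hu, hv, he⟩, rfl⟩

theorem cheeger_eq {V : Type} (G : SimpleGraph V) :
    cheeger G = sInf {r : ℝ | ∃ A : Finset V, A.Nonempty ∧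
            r = (Set.ncard {p : V × V | p.1 ∈ A ∧ p.2 ∉ A ∧ G.Adj p.1 p.2} : ℝ)
              / (A.card : ℝ)} := by
  unfold cheeger
  simp only [ncard_edgeBoundary]

theorem cheeger_net {V : Type} (G : SimpleGraph V) (k : ℕ) (S : Set V) :
    cheeger (netGraph G k S) =
        sInf {r : ℝ | ∃ A : Finset V, A.Nonempty ∧ (↑A : Set V) ⊆ S ∧
            r = (Set.ncard {p : V × V | p.1 ∈ A ∧ p.2 ∈ S ∧ p.2 ∉ A ∧
                  G.dist p.1 p.2 ≤ 2 * k} : ℝ)
              / (A.card : ℝ)} := by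
  classical
  rw [cheeger_eq]
  have key : ∀ A : Finset S,
      Set.ncard {p : S × S | p.1 ∈ A ∧ p.2 ∉ A ∧ (netGraph G k S).Adj p.1 p.2} =
      Set.ncard {p : V × V | p.1 ∈ A.map (Function.Embedding.subtype _) ∧ p.2 ∈ S ∧
        p.2 ∉ A.map (Function.Embedding.subtype _) ∧ G.dist p.1 p.2 ≤ 2 * k} := by
    intro A
    refine Set.ncard_congr (fun p _ => ((p.1 : V), (p.2 : V))) ?_ ?_ ?_
    · rintro ⟨u, v⟩ ⟨hu, hv, h⟩
      refine ⟨?_, v.2, ?_, h.2⟩
      · exact Finset.mem_map.2 ⟨u, hu, rfl⟩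
      · intro hv'
        obtain ⟨w, hw, hwv⟩ := Finset.mem_map.1 hv'
        have : w = v := Subtype.ext hwv
        exact hv (this ▸ hw)
    · rintro ⟨u, v⟩ ⟨u', v'⟩ _ _ he
      simp only [Prod.mk.injEq] at he
      exact Prod.ext (Subtype.ext he.1) (Subtype.ext he.2)
    · rintro ⟨u, v⟩ ⟨hu, hvS, hv, h⟩
      obtain ⟨w, hw, rfl⟩ := Finset.mem_map.1 hu
      have hv' : (⟨v, hvS⟩ : S) ∉ A := fun h' => hv (Finset.mem_map.2 ⟨_, h', rfl⟩)
      refine ⟨(w, ⟨v, hvS⟩), ⟨hw, hv', ?_, h⟩, rfl⟩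
      intro hwe
      have hwe' : w = ⟨v, hvS⟩ := hwe
      rw [hwe'] at hw
      exact hv' hw
  congr 1
  ext r
  constructor
  · rintro ⟨A, hA, rfl⟩
    refine ⟨A.map (Function.Embedding.subtype _), hA.map, ?_, ?_⟩
    · intro x hx
      obtain ⟨w, _, rfl⟩ := Finset.mem_map.1 (Finset.mem_coe.1 hx)
      exact w.2
    · rw [key A, Finset.card_map]
  · rintro ⟨A, hA, hAS, rfl⟩
    have hmap : (A.subtype (· ∈ S)).map (Function.Embedding.subtype _) = A := by
      rw [Finset.subtype_map]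
      exact Finset.filter_true_of_mem (fun x hx => hAS hx)
    refine ⟨A.subtype (· ∈ S), ?_, ?_⟩
    · rw [← Finset.map_nonempty (f := Function.Embedding.subtype (· ∈ S)), hmap]
      exact hA
    · have h1 := key (A.subtype (· ∈ S))
      rw [hmap] at h1
      rw [h1]
      congr 2
      conv_lhs => rw [← hmap, Finset.card_map]

/-- The negation of the preceding statement: For every infinite connected locally finite vertex-transitive graph G, every k ≥ 1 and every maximal k-separated vertex set S, the Cheeger constant of the graph on S joining points at distance ≤ 2k is at least the Cheeger constant of G. -/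
theorem result :
    ¬ (∀ (V : Type) (G : SimpleGraph V), Infinite V → G.Connected →
      (∀ v : V, (G.neighborSet v).Finite) →
      (∀ u v : V, ∃ φ : G ≃g G, φ u = v) →
      ∀ k : ℕ, 1 ≤ k →
      ∀ S : Set V,
        (∀ u ∈ S, ∀ v ∈ S, u ≠ v → k ≤ G.dist u v) →
        (∀ w : V, w ∉ S → ∃ u ∈ S, G.dist w u < k) →
        sInf {r : ℝ | ∃ A : Finset V, A.Nonempty ∧
            r = (Set.ncard {p : V × V | p.1 ∈ A ∧ p.2 ∉ A ∧ G.Adj p.1 p.2} : ℝ)
              / (A.card : ℝ)}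
          ≤
        sInf {r : ℝ | ∃ A : Finset V, A.Nonempty ∧ (↑A : Set V) ⊆ S ∧
            r = (Set.ncard {p : V × V | p.1 ∈ A ∧ p.2 ∈ S ∧ p.2 ∉ A ∧
                  G.dist p.1 p.2 ≤ 2 * k} : ℝ)
              / (A.card : ℝ)}) := by
  intro H
  obtain ⟨V, G, hinf, hconn, hlf, htr, ⟨S, hS⟩, hlt⟩ :=
    Pool.Agent.Results.MP_2d87f2_co.Blowup.result 2 le_rfl 1 one_pos
  have h1 := H V G hinf hconn hlf htr 2 (by norm_num) S hS.1 ?_
  · rw [← cheeger_eq, ← cheeger_net] at h1
    have h2 := hlt S hS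
    linarith
  · intro w hw
    by_contra hcon
    push Not at hcon
    apply hw
    have hsep : Separated G 2 (insert w S) := by
      intro u hu v hv huv
      rcases hu with rfl | hu <;> rcases hv with rfl | hv
      · exact absurd rfl huv
      · exact hcon v hv
      · rw [SimpleGraph.dist_comm]
        exact hcon u hu
      · exact hS.1 u hu v hv huv
    exact hS.2 hsep (Set.subset_insert w S) (Set.mem_insert w S)

end Pool.Agent.S07874
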