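import Pool.Statements.S07942
import Pool.Agent.Results.MP_30ed83_co.LinearForests

set_option autoImplicit false
open Pool Pool.MP_30ed83_co

namespace Pool.Agent.S07942

open SimpleGraph

/-- the star with centre `0` and three leaves -/
def star4 : SimpleGraph (Fin 4) where
  Adj a b := (a = 0 ∧ b ≠ 0) ∨ (b = 0 ∧ a ≠ 0)
  symm := ⟨fun a b h => h.symm⟩
  loopless := ⟨fun a h => by
    rcases h with ⟨h1, h2⟩ | ⟨h1, h2⟩ <;> exact h2 h1⟩

theorem star4_chrom : star4.chromaticNumber = 2 := by
  have h1 : star4.Colorable 2 := by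
    refine ⟨Coloring.mk (fun a => if a = 0 then 0 else 1) ?_⟩
    rintro a b (⟨h1, h2⟩ | ⟨h1, h2⟩)
    · simp [h1, h2]
    · simp [h1, h2]
  apply le_antisymm
  · exact h1.chromaticNumber_le
  · apply two_le_chromaticNumber_of_adj (u := 0) (v := 1)
    exact Or.inl ⟨rfl, by decide⟩

theorem star4_not (k : ℕ) : ¬ star4.IsIndContained (pathGraph k) := by
  rintro ⟨e⟩
  have h : ∀ i : Fin 4, i ≠ 0 → (pathGraph k).Adj (e 0) (e i) := by
    intro i hi
    exact e.map_rel_iff.2 (Or.inl ⟨rfl, hi⟩)
  have hne : ∀ i j : Fin 4, i ≠ j → (e i).val ≠ (e j).val := by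
    intro i j hij h2
    exact hij (e.injective (Fin.ext h2))
  have h1 := pathGraph_adj.1 (h 1 (by decide))
  have h2 := pathGraph_adj.1 (h 2 (by decide))
  have h3 := pathGraph_adj.1 (h 3 (by decide))
  have n12 := hne 1 2 (by decide)
  have n13 := hne 1 3 (by decide)
  have n23 := hne 2 3 (by decide)
  omega

/-- The negation of the preceding statement: For every finite graph F with an edge and every r, some finite graph G has chromatic number above r and clique number equal to F's, and every induced subgraph of G with no induced copy of F has chromatic number at most that of F. -/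
theorem result :
    ¬ (∀ (n : ℕ) (F : SimpleGraph (Fin n)), F ≠ ⊥ →
      ∀ r : ℕ, ∃ (m : ℕ) (G : SimpleGraph (Fin m)),
        (r : ℕ∞) < G.chromaticNumber ∧
        G.cliqueNum = F.cliqueNum ∧
        ∀ s : Set (Fin m), ¬ F.IsIndContained (G.induce s) →
          (G.induce s).chromaticNumber ≤ F.chromaticNumber) := by
  intro h
  have hne : star4 ≠ ⊥ := by
    intro hb
    have h1 : star4.Adj 0 1 := Or.inl ⟨rfl, by decide⟩
    rw [hb] at h1
    exact h1
  obtain ⟨k, hk⟩ := (Pool.Agent.Results.MP_30ed83_co.LinearForests.result 4 star4 star4_chrom).1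
    (fun r => h 4 star4 hne r)
  exact star4_not k hk

end Pool.Agent.S07942
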