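import Pool.Statements.S08110
import Mathlib

/-!
# Algebraic dimension and order dimension of distributive lattices can differ

The lattice `T` of the open sets of the real line is distributive. Mapping an open set `U` to the
family of the truth values of `B i ⊆ U`, where `B i` are countably many basic open sets, is an
order embedding of `T` into a product of countably many two-element chains, so the order dimension
of `T` is countable. On the other hand let `f` be a lattice embedding of `T` into a product of
chains. For every real `x` let `V x` be the complement of `{x}`. Since `f (V x) < f ⊤` there is an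
index `i x` with `f (V x) (i x) < f ⊤ (i x)`. If `x ≠ y`, then `V x ⊔ V y = ⊤`, so in every chain
the larger one of `f (V x) i`, `f (V y) i` is `f ⊤ i`, and `i x ≠ i y`. So the number of
chains is uncountable.
-/

set_option autoImplicit false
universe u
open Pool Pool.MP_375da3_co

namespace Pool.Agent.S08110

open TopologicalSpace

/-- the complement of a point as an open set -/
def V (x : ULift.{u} ℝ) : Opens (ULift.{u} ℝ) :=
  ⟨{x}ᶜ, by
    have h : ({x}ᶜ : Set (ULift.{u} ℝ)) = ULift.down ⁻¹' ({x.down}ᶜ : Set ℝ) := by
      ext y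
      simp only [Set.mem_compl_iff, Set.mem_singleton_iff, Set.mem_preimage]
      constructor
      · intro h1 h2
        exact h1 (ULift.ext _ _ h2)
      · intro h1 h2
        exact h1 (by rw [h2])
    rw [h]
    exact isOpen_compl_singleton.preimage continuous_uliftDown⟩

lemma V_ne_top (x : ULift.{u} ℝ) : V x ≠ ⊤ := by
  intro h
  have : x ∈ V x := by rw [h]; trivial
  exact this rfl

lemma V_sup (x y : ULift.{u} ℝ) (h : x ≠ y) : V x ⊔ V y = ⊤ := by
  ext z
  simp only [Opens.coe_sup, Opens.coe_top, Set.mem_univ, iff_true, Set.mem_union]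
  by_cases hz : z = x
  · right
    subst hz
    exact h
  · left
    exact hz

/-- The order embedding of the lattice of open sets of the line into a product of countably many
chains with two elements. -/
lemma embed : Nonempty (Opens (ULift.{u} ℝ) ↪o (ULift.{u} ℕ → ULift.{u} Prop)) := by
  obtain ⟨b, hbc, -, hb⟩ := TopologicalSpace.exists_countable_basis ℝ
  have hbne : b.Nonempty := by
    obtain ⟨v, hv, -⟩ := hb.exists_subset_of_mem_open (Set.mem_univ (0 : ℝ)) isOpen_univ
    exact ⟨v, hv⟩
  obtain ⟨B, hB⟩ := hbc.exists_eq_range hbne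
  have key : ∀ U W : Opens (ULift.{u} ℝ),
      (∀ n : ULift.{u} ℕ, (ULift.down ⁻¹' B n.down ⊆ (U : Set (ULift.{u} ℝ))) →
        (ULift.down ⁻¹' B n.down ⊆ (W : Set (ULift.{u} ℝ)))) → U ≤ W := by
    intro U W h x hx
    have hU : IsOpen (ULift.up ⁻¹' (U : Set (ULift.{u} ℝ)) : Set ℝ) :=
      U.isOpen.preimage continuous_uliftUp
    obtain ⟨v, hv, hxv, hvU⟩ := hb.exists_subset_of_mem_open (show x.down ∈ _ from hx) hU
    rw [hB] at hv
    obtain ⟨n, rfl⟩ := hv
    exact h ⟨n⟩ (fun y hy => hvU hy) hxv
  refine ⟨OrderEmbedding.ofMapLEIff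
    (fun U n => ULift.up (ULift.down ⁻¹' B n.down ⊆ (U : Set (ULift.{u} ℝ)))) ?_⟩
  intro U W
  constructor
  · intro h
    exact key U W (fun n => h n)
  · intro h n hn
    exact fun y hy => h (hn hy)

theorem result :
    ¬ (∀ (T : Type u) [DistribLattice T] (ι : Type u) (C : ι → Type u)
      [∀ i, LinearOrder (C i)],
      Nonempty (T ↪o ((i : ι) → C i)) →
        ∃ (D : ι → Type u) (_ : ∀ i, LinearOrder (D i)),
          ∃ f : LatticeHom T ((i : ι) → D i), Function.Injective f) := by
  intro h
  obtain ⟨D, _, f, hf⟩ := h (Opens (ULift.{u} ℝ)) (ULift.{u} ℕ) (fun _ => ULift.{u} Prop) embed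
  have h1 : ∀ x : ULift.{u} ℝ, ∃ i, f (V x) i ≠ f ⊤ i := by
    intro x
    by_contra hcon
    push Not at hcon
    exact V_ne_top x (hf (funext hcon))
  choose i hi using h1
  have hinj : Function.Injective i := by
    intro x y hxy
    by_contra hne
    have h2 : f (V x) (i x) ⊔ f (V y) (i x) = f ⊤ (i x) := by
      rw [← V_sup x y hne, map_sup]
      rfl
    rcases le_total (f (V x) (i x)) (f (V y) (i x)) with h3 | h3
    · rw [sup_eq_right.2 h3] at h2
      rw [hxy] at h2
      exact hi y h2
    · rw [sup_eq_left.2 h3] at h2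
      exact hi x h2
  have hc : Countable (ULift.{u} ℝ) := hinj.countable
  have hc' : Countable ℝ := (Equiv.ulift.{u} (α := ℝ)).symm.injective.countable
  exact Cardinal.not_countable_real (Set.to_countable _)

end Pool.Agent.S08110
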