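import Pool.Statements.S09524
import Pool.Agent.Helper35.Transversal

set_option autoImplicit false
open Pool Pool.MP_74be22_co

namespace Pool.Agent.S09524

/-- The negation of the preceding statement: For each c₁>0 there is C such that any family of subsets of an n-set, each of size more than c₁√n and pairwise sharing at most one element, has a set S meeting every member in between 1 and C elements. -/
theorem result :
    ¬ (∀ c₁ : ℝ, 0 < c₁ → ∃ C : ℕ, ∀ n : ℕ, ∀ F : Finset (Finset (Fin n)),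
      (∀ A ∈ F, c₁ * Real.sqrt (n : ℝ) < ((A.card : ℕ) : ℝ)) →
      (∀ A ∈ F, ∀ B ∈ F, A ≠ B → (A ∩ B).card ≤ 1) →
      ∃ S : Finset (Fin n), ∀ A ∈ F, 1 ≤ (A ∩ S).card ∧ (A ∩ S).card ≤ C) := by
  intro h
  obtain ⟨C, hC⟩ := h (1 / 4) (by norm_num)
  obtain ⟨p, F, h1, h2, h3⟩ := Pool.Agent.Helper35.Transversal.no_transversal C
  refine h3 (hC (p ^ 2) F (fun A hA => ?_) h2)
  have h4 : Real.sqrt ((p ^ 2 : ℕ) : ℝ) = p := by
    rw [Nat.cast_pow]
    exact Real.sqrt_sq (Nat.cast_nonneg p)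
  have h5 : (p : ℝ) < 4 * (A.card : ℝ) := by exact_mod_cast h1 A hA
  rw [h4]
  linarith

end Pool.Agent.S09524
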