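import Pool.Statements.S11737
import Pool.Agent.Helper53.Ext.Approx

set_option autoImplicit false
open Pool Pool.MP_d7e043_co

namespace Pool.Agent.S11737

open Pool.Agent.Helper53.Ext

theorem dist_sq_eq {n : ℕ} (x y : EuclideanSpace ℝ (Fin n)) :
    dist x y ^ 2 = sqd x.ofLp y.ofLp := by
  rw [EuclideanSpace.dist_eq, Real.sq_sqrt (Finset.sum_nonneg fun _ _ => sq_nonneg _)]
  unfold sqd
  refine Finset.sum_congr rfl fun i _ => ?_
  rw [Real.dist_eq, sq_abs]

/-- compactness: a Ramsey set has finite hosts -/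
theorem host_of_ramsey {d : ℕ} (X : Set (EuclideanSpace ℝ (Fin d))) (hX : X.Finite) (r N : ℕ)
    (H : ∀ c : EuclideanSpace ℝ (Fin N) → Fin (r + 1),
      ∃ g : X → EuclideanSpace ℝ (Fin N), Isometry g ∧ ∀ x y : X, c (g x) = c (g y)) :
    Host X (fun x y => dist x y ^ 2) (Fin (r + 1)) := by
  classical
  have : Finite X := hX
  set G := {g : X → EuclideanSpace ℝ (Fin N) // Isometry g} with hG
  set t : G → Set (EuclideanSpace ℝ (Fin N) → Fin (r + 1)) :=
    fun g => {c | ∃ x y : X, c (g.1 x) ≠ c (g.1 y)} with ht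
  have htc : ∀ g, IsClosed (t g) := by
    intro g
    have h1 : t g = ⋃ x : X, ⋃ y : X, {c | c (g.1 x) ≠ c (g.1 y)} := by
      ext c; simp [ht]
    rw [h1]
    refine isClosed_iUnion_of_finite fun x => isClosed_iUnion_of_finite fun y => ?_
    have h2 : Continuous fun c : EuclideanSpace ℝ (Fin N) → Fin (r + 1) =>
        (c (g.1 x), c (g.1 y)) := by fun_prop
    exact (isClosed_discrete {p : Fin (r + 1) × Fin (r + 1) | p.1 ≠ p.2}).preimage h2
  obtain ⟨u, hu⟩ := isCompact_univ.elim_finite_subfamily_closed t htc (by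
    rw [Set.univ_inter, Set.eq_empty_iff_forall_notMem]
    intro c hc
    obtain ⟨g, hg, hgc⟩ := H c
    obtain ⟨x, y, hxy⟩ := Set.mem_iInter.1 hc ⟨g, hg⟩
    exact hxy (hgc x y))
  refine ⟨{p : EuclideanSpace ℝ (Fin N) // ∃ g ∈ u, ∃ x, (g : G).1 x = p}, Fin N, ?_,
    inferInstance, fun p => p.1.ofLp, fun c => ?_⟩
  · have : Finite (u × X) := inferInstance
    exact Finite.of_surjective (fun q : u × X =>
      (⟨q.1.1.1 q.2, q.1.1, q.1.2, q.2, rfl⟩ :
        {p : EuclideanSpace ℝ (Fin N) // ∃ g ∈ u, ∃ x, (g : G).1 x = p})) (by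
      rintro ⟨p, g, hg, x, rfl⟩
      exact ⟨(⟨g, hg⟩, x), rfl⟩)
  · set c' : EuclideanSpace ℝ (Fin N) → Fin (r + 1) := fun p =>
      if h : ∃ g ∈ u, ∃ x, (g : G).1 x = p then c ⟨p, h⟩ else 0 with hc'
    have h1 : c' ∉ Set.univ ∩ ⋂ i ∈ u, t i := by rw [hu]; exact Set.notMem_empty _
    have h2 : ∃ g ∈ u, ∀ x y : X, c' ((g : G).1 x) = c' (g.1 y) := by
      by_contra hcon
      push Not at hcon
      apply h1
      refine ⟨Set.mem_univ _, ?_⟩
      simp only [Set.mem_iInter]
      intro g hg
      exact hcon g hg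
    obtain ⟨g, hg, hgc⟩ := h2
    refine ⟨fun x => ⟨g.1 x, g, hg, x, rfl⟩, ?_, ?_⟩
    · intro x y
      have h3 := hgc x y
      simp only [hc'] at h3
      rw [dif_pos ⟨g, hg, x, rfl⟩, dif_pos ⟨g, hg, y, rfl⟩] at h3
      exact h3
    · intro x y
      show sqd (g.1 x).ofLp (g.1 y).ofLp = dist x y ^ 2
      rw [← dist_sq_eq, g.2.dist_eq]

/-- If a finite set X in R^d is Ramsey (every r-colouring of some R^N has a monochromatic congruent copy), then X, placed in the hyperplane of R^(d+1), together with any point z off that hyperplane is also Ramsey. -/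
theorem result :
    ∀ (d : ℕ) (X : Set (EuclideanSpace ℝ (Fin d))) (z : EuclideanSpace ℝ (Fin (d + 1))),
      X.Finite →
      (∀ r : ℕ, ∃ N : ℕ, ∀ c : EuclideanSpace ℝ (Fin N) → Fin r,
        ∃ g : X → EuclideanSpace ℝ (Fin N), Isometry g ∧ ∀ x y : X, c (g x) = c (g y)) →
      z (Fin.last d) ≠ 0 →
      ∀ r : ℕ, ∃ N : ℕ, ∀ c : EuclideanSpace ℝ (Fin N) → Fin r,
        ∃ g : ({y : EuclideanSpace ℝ (Fin (d + 1)) |
                  y (Fin.last d) = 0 ∧ ∃ x ∈ X, ∀ i : Fin d, y (Fin.castSucc i) = x i}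
                ∪ {z} : Set (EuclideanSpace ℝ (Fin (d + 1)))) → EuclideanSpace ℝ (Fin N),
          Isometry g ∧ ∀ x y, c (g x) = c (g y) := by
  intro d X z hXf hX hz r
  classical
  rcases X.eq_empty_or_nonempty with hemp | hne
  · subst hemp
    refine ⟨0, fun c => ⟨fun _ => 0, ?_, fun _ _ => rfl⟩⟩
    intro x y
    have h1 : ∀ x : ({y : EuclideanSpace ℝ (Fin (d + 1)) |
                  y (Fin.last d) = 0 ∧ ∃ x ∈ (∅ : Set (EuclideanSpace ℝ (Fin d))),
                    ∀ i : Fin d, y (Fin.castSucc i) = x i}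
                ∪ {z} : Set (EuclideanSpace ℝ (Fin (d + 1)))), x.1 = z := by
      rintro ⟨x, hx⟩
      rcases hx with ⟨-, x, hx, -⟩ | hx
      · exact absurd hx (Set.notMem_empty _)
      · exact hx
    have h2 : x = y := Subtype.ext ((h1 x).trans (h1 y).symm)
    rw [h2]; simp
  · have : Finite X := hXf
    have : Fintype X := Fintype.ofFinite X
    have : Nonempty X := hne.to_subtype
    -- the copy of `X` in the hyperplane
    set em : X → EuclideanSpace ℝ (Fin (d + 1)) := fun x =>
      WithLp.toLp 2 (Fin.snoc (α := fun _ => ℝ) (x : EuclideanSpace ℝ (Fin d)).ofLp 0) with hem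
    have em_last : ∀ x, em x (Fin.last d) = 0 := by
      intro x; simp [hem]
    have em_cast : ∀ x i, em x (Fin.castSucc i) = (x : EuclideanSpace ℝ (Fin d)) i := by
      intro x i; simp [hem]
    have em_dist : ∀ x y, dist (em x) (em y) ^ 2 = dist x y ^ 2 := by
      intro x y
      rw [dist_sq_eq, Subtype.dist_eq, dist_sq_eq]
      unfold sqd
      rw [Fin.sum_univ_castSucc]
      have e1 : (em x).ofLp (Fin.last d) = 0 := em_last x
      have e2 : (em y).ofLp (Fin.last d) = 0 := em_last y
      rw [e1, e2]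
      simp only [sub_self, ne_eq, OfNat.ofNat_ne_zero, not_false_eq_true, zero_pow, add_zero]
      refine Finset.sum_congr rfl fun i _ => ?_
      have e3 : (em x).ofLp (Fin.castSucc i) = (x : EuclideanSpace ℝ (Fin d)).ofLp i := em_cast x i
      have e4 : (em y).ofLp (Fin.castSucc i) = (y : EuclideanSpace ℝ (Fin d)).ofLp i := em_cast y i
      rw [e3, e4]
    -- the foot of the perpendicular from `z`
    have hS : (affineSpan ℝ (Set.range em) : Set (EuclideanSpace ℝ (Fin (d + 1)))).Nonempty :=
      ⟨em (Classical.arbitrary X), mem_affineSpan ℝ ⟨_, rfl⟩⟩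
    have : Nonempty (affineSpan ℝ (Set.range em)) := hS.to_subtype
    set p : EuclideanSpace ℝ (Fin (d + 1)) :=
      ((EuclideanGeometry.orthogonalProjection (affineSpan ℝ (Set.range em)) z :
        affineSpan ℝ (Set.range em)) : EuclideanSpace ℝ (Fin (d + 1))) with hp
    have hpm : p ∈ affineSpan ℝ (Set.range em) :=
      EuclideanGeometry.orthogonalProjection_mem z
    obtain ⟨w, hw, hpw⟩ := eq_affineCombination_of_mem_affineSpan_of_fintype hpm
    have hpw' : p = ∑ i, w i • em i := by
      rw [hpw, Finset.affineCombination_eq_linear_combination _ _ _ hw]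
    have hpb : p.ofLp = fun b => ∑ i, w i * (em i).ofLp b := by
      funext b
      rw [hpw']
      simp
    have hpl : p (Fin.last d) = 0 := by
      have h1 : p (Fin.last d) = ∑ i, w i * em i (Fin.last d) := congrFun hpb (Fin.last d)
      rw [h1]
      exact Finset.sum_eq_zero fun i _ => by rw [em_last, mul_zero]
    have hzp : z ≠ p := fun h => hz (by rw [h]; exact hpl)
    have hpyth : ∀ j, dist z (em j) ^ 2 = dist z p ^ 2 + dist p (em j) ^ 2 := by
      intro j
      have h1 := EuclideanGeometry.dist_sq_eq_dist_orthogonalProjection_sq_add_dist_orthogonalProjection_sq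
        (s := affineSpan ℝ (Set.range em)) (p₁ := em j) z (mem_affineSpan ℝ ⟨j, rfl⟩)
      rw [dist_comm z (em j), dist_comm p (em j)]
      rw [← hp] at h1
      nlinarith [h1]
    have hhost := host_all approx (fun x y : X => dist x y ^ 2) w hw (dist z p ^ 2)
      (by have := dist_pos.2 hzp; positivity) (fun j => dist z (em j) ^ 2) (by
        intro j
        rw [hpyth j, add_comm]
        congr 1
        rw [dist_sq_eq, hpb, sqd_foot w hw (fun i => (em i).ofLp) j]
        simp only [← dist_sq_eq, em_dist]) (by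
        intro r
        obtain ⟨N, hN⟩ := hX (r + 1)
        exact host_of_ramsey X hXf r N hN) r
    obtain ⟨α, β, hα, hβ, P, hP⟩ := hhost
    refine ⟨Fintype.card β, fun c => ?_⟩
    set eb : β ≃ Fin (Fintype.card β) := Fintype.equivFin β with heb
    set Q : α → EuclideanSpace ℝ (Fin (Fintype.card β)) := fun a =>
      WithLp.toLp 2 (fun n => P a (eb.symm n)) with hQ
    have hQd : ∀ a b, dist (Q a) (Q b) ^ 2 = sqd (P a) (P b) := by
      intro a b
      rw [dist_sq_eq]
      unfold sqd
      exact Equiv.sum_comp eb.symm (fun x => (P a x - P b x) ^ 2)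
    obtain ⟨g, hgc, hgd⟩ := hP (fun a => c (Q a))
    set pt : Option X → EuclideanSpace ℝ (Fin (d + 1)) := fun o => o.elim z em with hpt
    have hext : ∀ o o', extD (fun x y : X => dist x y ^ 2) (fun j => dist z (em j) ^ 2) o o'
        = dist (pt o) (pt o') ^ 2 := by
      intro o o'
      cases o with
      | none =>
        cases o' with
        | none => simp [extD]
        | some j => rfl
      | some i =>
        cases o' with
        | none =>
          show dist z (em i) ^ 2 = dist (em i) z ^ 2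
          rw [dist_comm]
        | some j => exact (em_dist i j).symm
    have hex : ∀ y : ({y : EuclideanSpace ℝ (Fin (d + 1)) |
                  y (Fin.last d) = 0 ∧ ∃ x ∈ X, ∀ i : Fin d, y (Fin.castSucc i) = x i}
                ∪ {z} : Set (EuclideanSpace ℝ (Fin (d + 1)))), ∃ o, pt o = y.1 := by
      rintro ⟨y, hy⟩
      rcases hy with ⟨h0, x, hx, hxi⟩ | hy
      · refine ⟨some ⟨x, hx⟩, ?_⟩
        show em ⟨x, hx⟩ = y
        ext i
        refine Fin.lastCases ?_ (fun i => ?_) i
        · rw [h0]; exact em_last _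
        · rw [hxi i]; exact em_cast _ _
      · exact ⟨none, hy.symm⟩
    choose o ho using hex
    refine ⟨fun y => Q (g (o y)), ?_, fun x y => hgc _ _⟩
    refine Isometry.of_dist_eq fun x y => ?_
    have h1 : dist (Q (g (o x))) (Q (g (o y))) ^ 2 = dist x y ^ 2 := by
      rw [hQd, hgd, hext, ho, ho, Subtype.dist_eq]
    exact (sq_eq_sq₀ dist_nonneg dist_nonneg).1 h1

end Pool.Agent.S11737
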