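import Pool.Statements.S12391
import Pool.Agent.Helper53.Spheres.Five

set_option autoImplicit false
open Pool Pool.MP_f35a22_co

namespace Pool.Agent.S12391

open Pool.Agent.Helper53.Spheres

theorem dist_one_iff (p c : EuclideanSpace ℝ (Fin 3)) :
    dist p c = 1 ↔ (p.ofLp - c.ofLp) ⬝ᵥ (p.ofLp - c.ofLp) = 1 := by
  rw [EuclideanSpace.dist_eq, Real.sqrt_eq_one]
  simp only [dotProduct, Fin.sum_univ_three, Real.dist_eq, sq_abs, Pi.sub_apply]
  constructor <;> intro h <;> linarith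

theorem five_subset (S : Set (EuclideanSpace ℝ (Fin 3)))
    (h4 : ∀ T : Set (EuclideanSpace ℝ (Fin 3)), T ⊆ S → T.encard = 4 →
        ∃ p : EuclideanSpace ℝ (Fin 3), ∀ c ∈ T, p ∈ Metric.sphere c 1)
    (a : Fin 5 → EuclideanSpace ℝ (Fin 3)) (ha : Function.Injective a) (haS : ∀ i, a i ∈ S) :
    ∃ p : EuclideanSpace ℝ (Fin 3), ∀ i, dist p (a i) = 1 := by
  have h : ∀ i, ∃ p : EuclideanSpace ℝ (Fin 3), ∀ j, j ≠ i → dist p (a j) = 1 := by
    intro i
    obtain ⟨p, hp⟩ := h4 (a '' {j | j ≠ i}) (by rintro _ ⟨j, _, rfl⟩; exact haS j) (by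
      rw [ha.encard_image]
      have h1 : ({j | j ≠ i} : Set (Fin 5)) = ((Finset.univ.erase i : Finset (Fin 5)) : Set (Fin 5)) := by
        ext j; simp
      rw [h1, Set.encard_coe_eq_coe_finsetCard, Finset.card_erase_of_mem (Finset.mem_univ i)]
      simp)
    exact ⟨p, fun j hj => hp (a j) ⟨j, hj, rfl⟩⟩
  choose o ho using h
  by_contra hcon
  push Not at hcon
  apply five (fun i => (a i).ofLp) (fun i => (o i).ofLp)
  · intro i j hij h
    exact hij (ha (WithLp.ofLp_injective 2 h))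
  · intro i j hij
    rw [← dist_one_iff, dist_comm]
    exact ho j i hij
  · intro i hi
    rw [← dist_one_iff, dist_comm] at hi
    obtain ⟨j, hj⟩ := hcon (o i)
    by_cases hij : j = i
    · subst hij; exact hj hi
    · exact hj (ho i j hij)

/-- For any set of at least 5 distinct centers in 3-space, if every 4 of the unit spheres around them share a common point, then one point lies on all of these unit spheres. -/
theorem result :
    ∀ S : Set (EuclideanSpace ℝ (Fin 3)),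
      5 ≤ S.encard →
      (∀ T : Set (EuclideanSpace ℝ (Fin 3)), T ⊆ S → T.encard = 4 →
        ∃ p : EuclideanSpace ℝ (Fin 3), ∀ c ∈ T, p ∈ Metric.sphere c 1) →
      ∃ p : EuclideanSpace ℝ (Fin 3), ∀ c ∈ S, p ∈ Metric.sphere c 1 := by
  intro S h5 h4
  by_contra hcon
  push Not at hcon
  simp only [Metric.mem_sphere] at hcon
  obtain ⟨T, hTS, hT⟩ := Set.exists_subset_encard_eq h5
  have hTf : T.Finite := Set.finite_of_encard_eq_coe (k := 5) (by rw [hT]; rfl)
  obtain ⟨f, hf⟩ : ∃ f : Fin 5 → EuclideanSpace ℝ (Fin 3), Function.Injective f ∧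
      ∀ i, f i ∈ S := by
    have : Fintype T := hTf.fintype
    have hc : Fintype.card T = 5 := by
      have h1 : T.ncard = 5 := by rw [Set.ncard_def, hT]; rfl
      rw [← Nat.card_eq_fintype_card]
      exact h1
    obtain ⟨e⟩ : Nonempty (Fin 5 ≃ T) := ⟨(Fintype.equivFinOfCardEq hc).symm⟩
    exact ⟨fun i => (e i : EuclideanSpace ℝ (Fin 3)), Subtype.val_injective.comp e.injective,
      fun i => hTS (e i).2⟩
  obtain ⟨hfi, hfS⟩ := hf
  have four : ∀ g : Fin 4 → EuclideanSpace ℝ (Fin 3), Function.Injective g → (∀ i, g i ∈ S) →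
      ∃ p, ∀ i, dist p (g i) = 1 := by
    intro g hg hgS
    obtain ⟨p, hp⟩ := h4 (Set.range g) (by rintro _ ⟨j, rfl⟩; exact hgS j) (by
      rw [← Set.image_univ, hg.encard_image, Set.encard_univ]
      simp)
    exact ⟨p, fun i => hp _ ⟨i, rfl⟩⟩
  obtain ⟨p, hp⟩ := four (fun i => f i.castSucc) (fun i j h => by simpa using hfi h)
    (fun i => hfS _)
  obtain ⟨d, hdS, hd⟩ := hcon p
  have p0 : dist p (f 0) = 1 := hp 0
  have p1 : dist p (f 1) = 1 := hp 1
  have p2 : dist p (f 2) = 1 := hp 2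
  have d0 : d ≠ f 0 := fun h => hd (h ▸ p0)
  have d1 : d ≠ f 1 := fun h => hd (h ▸ p1)
  have d2 : d ≠ f 2 := fun h => hd (h ▸ p2)
  have f01 : f 0 ≠ f 1 := fun h => by simpa using hfi h
  have f02 : f 0 ≠ f 2 := fun h => by simpa using hfi h
  have f12 : f 1 ≠ f 2 := fun h => by simpa using hfi h
  obtain ⟨q, hq⟩ := four ![f 0, f 1, f 2, d] (by
      intro i j h
      fin_cases i <;> fin_cases j <;> simp_all [eq_comm]) (by
      intro i
      fin_cases i
      · exact hfS 0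
      · exact hfS 1
      · exact hfS 2
      · exact hdS)
  have q0 : dist q (f 0) = 1 := hq 0
  have q1 : dist q (f 1) = 1 := hq 1
  have q2 : dist q (f 2) = 1 := hq 2
  have qd : dist q d = 1 := hq 3
  obtain ⟨c, hcS, hc⟩ := hcon q
  have c0 : c ≠ f 0 := fun h => hc (h ▸ q0)
  have c1 : c ≠ f 1 := fun h => hc (h ▸ q1)
  have c2 : c ≠ f 2 := fun h => hc (h ▸ q2)
  have cd : c ≠ d := fun h => hc (h ▸ qd)
  obtain ⟨s, hs⟩ := five_subset S h4 ![f 0, f 1, f 2, d, c] (by
      intro i j h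
      fin_cases i <;> fin_cases j <;> simp_all [eq_comm]) (by
      intro i
      fin_cases i
      · exact hfS 0
      · exact hfS 1
      · exact hfS 2
      · exact hdS
      · exact hcS)
  have s0 : dist s (f 0) = 1 := hs 0
  have s1 : dist s (f 1) = 1 := hs 1
  have s2 : dist s (f 2) = 1 := hs 2
  have sd : dist s d = 1 := hs 3
  have sc : dist s c = 1 := hs 4
  have pq : q ≠ p := fun h => hd (h ▸ qd)
  have sp : s ≠ p := fun h => hd (h ▸ sd)
  have qs : q ≠ s := fun h => hc (h ▸ sc)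
  have inj : ∀ x y : EuclideanSpace ℝ (Fin 3), x ≠ y → x.ofLp ≠ y.ofLp :=
    fun x y h h' => h (WithLp.ofLp_injective 2 h')
  rw [dist_comm, dist_one_iff] at p0 p1 p2 q0 q1 q2 s0 s1 s2
  exact k33 (f 0).ofLp (f 1).ofLp (f 2).ofLp p.ofLp q.ofLp s.ofLp (inj _ _ f01.symm)
    (inj _ _ f02.symm) (inj _ _ f12) (inj _ _ pq) (inj _ _ sp) (inj _ _ qs)
    p0 q0 s0 p1 q1 s1 p2 q2 s2

end Pool.Agent.S12391
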