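import Pool.Statements.S12829
import Pool.Agent.Helper66.PosetMap

set_option autoImplicit false
open Pool Pool.MP_191c59_gt

namespace Pool.Agent.S12829

/-- There is an absolute C such that every finite strongly regular CW complex with a free cellular involution, N vertices and M maximal cells has a continuous antipodal map to the n-sphere for some n ≤ C·log N·log M. -/
theorem result :
    ∃ C : ℝ, ∀ (P : Type) [Fintype P] [PartialOrder P] (σ : P ≃o P),
      (∀ x : P, ∃ n : ℕ, {y : P | y < x} = ∅ ∨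
        Nonempty (↥{f : P → ℝ | (∀ p, 0 ≤ f p) ∧ (∑ p, f p = 1) ∧ (∀ p, f p ≠ 0 → p < x) ∧
            IsChain (· ≤ ·) {p : P | f p ≠ 0}} ≃ₜ
          ↥(Metric.sphere (0 : EuclideanSpace ℝ (Fin (n + 1))) 1))) →
      (∀ x y : P, {z : P | z ≤ x ∧ z ≤ y} = ∅ ∨
        ∃ w : P, {z : P | z ≤ x ∧ z ≤ y} = {z : P | z ≤ w}) →
      (∀ x : P, σ (σ x) = x) → (∀ x : P, σ x ≠ x) →
      ∃ n : ℕ, (n : ℝ) ≤ C * Real.log ({x : P | IsMin x}.ncard : ℝ) *
            Real.log ({x : P | IsMax x}.ncard : ℝ) ∧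
        ∃ g : (P → ℝ) → EuclideanSpace ℝ (Fin (n + 1)),
          ContinuousOn g {f : P → ℝ | (∀ p, 0 ≤ f p) ∧ (∑ p, f p = 1) ∧
              IsChain (· ≤ ·) {p : P | f p ≠ 0}} ∧
          ∀ f ∈ {f : P → ℝ | (∀ p, 0 ≤ f p) ∧ (∑ p, f p = 1) ∧
              IsChain (· ≤ ·) {p : P | f p ≠ 0}},
            ‖g f‖ = 1 ∧ g (fun p => f (σ p)) = -g f := by
  refine ⟨70778880, ?_⟩
  intro P _ _ σ _ hmeet hinv hfree
  rcases isEmpty_or_nonempty P with hP | hP
  · refine ⟨0, ?_, fun _ => 0, continuousOn_const, ?_⟩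
    · have h1 : {x : P | IsMin x}.ncard = 0 := by
        rw [Set.eq_empty_of_isEmpty {x : P | IsMin x}, Set.ncard_empty]
      rw [h1]
      simp
    · rintro f ⟨_, hf, _⟩
      exfalso
      simp at hf
  · apply Pool.Agent.Helper66.poset_map P σ hinv hP
    intro F v hv hσv
    have h1 : v ≤ σ F := by
      have h := σ.monotone hσv
      rwa [hinv] at h
    rcases hmeet F (σ F) with h | ⟨w, hw⟩
    · have h2 : v ∈ {z : P | z ≤ F ∧ z ≤ σ F} := ⟨hv, h1⟩
      rw [h] at h2
      exact absurd h2 (Set.notMem_empty v)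
    · have hw1 : w ∈ {z : P | z ≤ F ∧ z ≤ σ F} := by
        rw [hw]
        exact le_rfl
      have hw2 : σ w ∈ {z : P | z ≤ F ∧ z ≤ σ F} := by
        refine ⟨?_, σ.monotone hw1.1⟩
        have h := σ.monotone hw1.2
        rwa [hinv] at h
      rw [hw] at hw2
      have h3 : σ w ≤ w := hw2
      have h4 : w ≤ σ w := by
        have h := σ.monotone h3
        rwa [hinv] at h
      exact hfree w (le_antisymm h3 h4)

end Pool.Agent.S12829
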