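import Pool.Statements.S12948
import Pool.Agent.Results.MP_2c1b2b_gt.LinearSegments

set_option autoImplicit false
open Pointwise
open Pool Pool.MP_2c1b2b_gt

namespace Pool.Agent.S12948

open Pool.Agent.Results.MP_2c1b2b_gt.LinearSegments (E segSum IsZonotope IsZonoid bmDist segNumber)

/-- the Minkowski sum of the segments `[-v i, v i]` is the set `segSum v` of the starting result -/
theorem sum_segment {n M : ℕ} (v : Fin M → EuclideanSpace ℝ (Fin n)) :
    ∑ i, segment ℝ (-v i) (v i) = segSum v := by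
  ext x
  rw [Set.mem_finsetSum]
  constructor
  · rintro ⟨g, hg, rfl⟩
    have h : ∀ i, ∃ t : ℝ, t ∈ Set.Icc (-1 : ℝ) 1 ∧ g i = t • v i := by
      intro i
      obtain ⟨a, b, ha, hb, hab, h⟩ := hg (Finset.mem_univ i)
      refine ⟨b - a, ⟨by linarith, by linarith⟩, ?_⟩
      rw [← h, sub_smul, smul_neg]
      abel
    choose t ht hgt using h
    exact ⟨t, ht, Finset.sum_congr rfl fun i _ => hgt i⟩
  · rintro ⟨t, ht, rfl⟩
    refine ⟨fun i => t i • v i, fun {i} _ => ?_, rfl⟩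
    obtain ⟨h1, h2⟩ := ht i
    refine ⟨(1 - t i) / 2, (1 + t i) / 2, by linarith, by linarith, by ring, ?_⟩
    rw [smul_neg, ← neg_smul, ← add_smul]
    congr 1
    ring

theorem segSum_convex {n M : ℕ} (v : Fin M → EuclideanSpace ℝ (Fin n)) :
    Convex ℝ (segSum v) := by
  rintro x ⟨s, hs, rfl⟩ y ⟨t, ht, rfl⟩ a b ha hb hab
  refine ⟨fun j => a * s j + b * t j, fun j => ?_, ?_⟩
  · exact (convex_Icc (-1 : ℝ) 1) (hs j) (ht j) ha hb hab
  · rw [Finset.smul_sum, Finset.smul_sum, ← Finset.sum_add_distrib]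
    refine Finset.sum_congr rfl fun j _ => ?_
    rw [add_smul, mul_smul, mul_smul]

theorem segSum_neg {n M : ℕ} (v : Fin M → EuclideanSpace ℝ (Fin n)) {x : EuclideanSpace ℝ (Fin n)}
    (hx : x ∈ segSum v) : -x ∈ segSum v := by
  obtain ⟨t, ht, rfl⟩ := hx
  refine ⟨fun j => -t j, fun j => ⟨by linarith [(ht j).2], by linarith [(ht j).1]⟩, ?_⟩
  simp [Finset.sum_neg_distrib]

theorem segSum_zero {n M : ℕ} (v : Fin M → EuclideanSpace ℝ (Fin n)) :
    (0 : EuclideanSpace ℝ (Fin n)) ∈ segSum v :=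
  ⟨fun _ => 0, fun _ => ⟨by norm_num, by norm_num⟩, by simp⟩

theorem segSum_compact {n M : ℕ} (v : Fin M → EuclideanSpace ℝ (Fin n)) :
    IsCompact (segSum v) := by
  have h : segSum v = (fun t : Fin M → ℝ => ∑ j, t j • v j) ''
      (Set.univ.pi fun _ => Set.Icc (-1 : ℝ) 1) := by
    ext x
    constructor
    · rintro ⟨t, ht, rfl⟩
      exact ⟨t, fun j _ => ht j, rfl⟩
    · rintro ⟨t, ht, rfl⟩
      exact ⟨t, fun j => ht j (Set.mem_univ j), rfl⟩
  rw [h]
  refine IsCompact.image (isCompact_univ_pi fun _ => isCompact_Icc) ?_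
  fun_prop

/-- A compact nonempty set that is a Hausdorff limit of symmetric zonotopes is an
origin-symmetric zonoid. -/
theorem isZonoid {n : ℕ} {K : Set (EuclideanSpace ℝ (Fin n))} (hK : IsCompact K)
    (hi : (interior K).Nonempty)
    (h : ∀ δ : ℝ, 0 < δ → ∃ m : ℕ, ∃ v : Fin m → EuclideanSpace ℝ (Fin n),
      Metric.hausdorffDist K (∑ i, segment ℝ (-v i) (v i)) < δ) : IsZonoid K := by
  have hne : K.Nonempty := hi.mono interior_subset
  have h' : ∀ δ : ℝ, 0 < δ → ∃ m : ℕ, ∃ v : Fin m → EuclideanSpace ℝ (Fin n),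
      (∀ x ∈ K, ∃ y ∈ segSum v, dist x y < δ) ∧ (∀ y ∈ segSum v, ∃ x ∈ K, dist y x < δ) ∧
      Metric.hausdorffDist K (segSum v) < δ := by
    intro δ hδ
    obtain ⟨m, v, hv⟩ := h δ hδ
    rw [sum_segment] at hv
    have hfin : Metric.hausdorffEDist K (segSum v) ≠ ⊤ :=
      Metric.hausdorffEDist_ne_top_of_nonempty_of_bounded hne ⟨0, segSum_zero v⟩ hK.isBounded
        (segSum_compact v).isBounded
    refine ⟨m, v, fun x hx => ?_, fun y hy => ?_, hv⟩
    · exact Metric.exists_dist_lt_of_hausdorffDist_lt hx hv hfin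
    · obtain ⟨x, hx, h1⟩ := Metric.exists_dist_lt_of_hausdorffDist_lt' hy hv hfin
      exact ⟨x, hx, by rwa [dist_comm] at h1⟩
  refine ⟨?_, hK, hi, ?_, ?_⟩
  · -- convexity
    intro x hx y hy a b ha hb hab
    rw [← hK.isClosed.closure_eq, Metric.mem_closure_iff]
    intro ε hε
    obtain ⟨m, v, h1, h2, -⟩ := h' (ε / 2) (by linarith)
    obtain ⟨x', hx', hxx⟩ := h1 x hx
    obtain ⟨y', hy', hyy⟩ := h1 y hy
    obtain ⟨z, hz, hzz⟩ := h2 _ (segSum_convex v hx' hy' ha hb hab)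
    refine ⟨z, hz, ?_⟩
    have h3 : dist (a • x + b • y) (a • x' + b • y') ≤ ε / 2 := by
      calc dist (a • x + b • y) (a • x' + b • y') ≤ dist (a • x) (a • x') + dist (b • y) (b • y') :=
            dist_add_add_le _ _ _ _
        _ = a * dist x x' + b * dist y y' := by
            rw [dist_smul₀, dist_smul₀, Real.norm_of_nonneg ha, Real.norm_of_nonneg hb]
        _ ≤ a * (ε / 2) + b * (ε / 2) := by
            gcongr
        _ = ε / 2 := by rw [← add_mul, hab, one_mul]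
    calc dist (a • x + b • y) z ≤ dist (a • x + b • y) (a • x' + b • y') +
          dist (a • x' + b • y') z := dist_triangle _ _ _
      _ < ε / 2 + ε / 2 := by linarith
      _ = ε := by ring
  · -- symmetry
    intro x hx
    rw [← hK.isClosed.closure_eq, Metric.mem_closure_iff]
    intro ε hε
    obtain ⟨m, v, h1, h2, -⟩ := h' (ε / 2) (by linarith)
    obtain ⟨x', hx', hxx⟩ := h1 x hx
    obtain ⟨z, hz, hzz⟩ := h2 _ (segSum_neg v hx')
    refine ⟨z, hz, ?_⟩
    calc dist (-x) z ≤ dist (-x) (-x') + dist (-x') z := dist_triangle _ _ _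
      _ = dist x x' + dist (-x') z := by rw [dist_neg_neg]
      _ < ε := by linarith
  · intro δ hδ
    obtain ⟨m, v, -, -, hv⟩ := h' δ hδ
    refine ⟨m, segSum v, ⟨0, v, ?_⟩, hv⟩
    ext x
    simp

/-- The negation of the preceding statement: For some ε>0 and every constant C, there is a dimension n and a zonoid K in ℝⁿ that is not within Banach–Mazur distance 1+ε of any sum of at most C·n segments, i.e. the bound C(ε)·n fails in general. -/
theorem result :
    ¬ (∃ ε : ℝ, 0 < ε ∧ ∀ C : ℝ, ∃ n : ℕ, ∃ K : Set (EuclideanSpace ℝ (Fin n)),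
      IsCompact K ∧ (interior K).Nonempty ∧
      (∀ δ : ℝ, 0 < δ → ∃ m : ℕ, ∃ v : Fin m → EuclideanSpace ℝ (Fin n),
          Metric.hausdorffDist K (∑ i, segment ℝ (-v i) (v i)) < δ) ∧
      ¬ ∃ m : ℕ, (m : ℝ) ≤ C * n ∧
          ∃ v : Fin m → EuclideanSpace ℝ (Fin n),
          ∃ T : EuclideanSpace ℝ (Fin n) ≃ₗ[ℝ] EuclideanSpace ℝ (Fin n),
            T '' K ⊆ ∑ i, segment ℝ (-v i) (v i) ∧
            ∑ i, segment ℝ (-v i) (v i) ⊆ (1 + ε) • (T '' K)) := by
  rintro ⟨ε, hε, h⟩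
  obtain ⟨C, hC, hmain⟩ := Pool.Agent.Results.MP_2c1b2b_gt.LinearSegments.result
  set η : ℝ := min ε (1 / 2) with hη
  have hη0 : 0 < η := lt_min hε (by norm_num)
  have hη1 : η < 1 := lt_of_le_of_lt (min_le_right _ _) (by norm_num)
  have hηε : η ≤ ε := min_le_left _ _
  obtain ⟨n, K, hK, hi, hlim, hno⟩ := h (C / η ^ 2)
  have hZ : IsZonoid K := isZonoid hK hi hlim
  obtain ⟨-, M, v, hM, h1, h2⟩ := hmain n K hZ η hη0 hη1
  have hne : (0 : EuclideanSpace ℝ (Fin n)) ∈ K := h1 (segSum_zero v)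
  apply hno
  refine ⟨M, hM, fun i => (1 + η) • v i, LinearEquiv.refl ℝ _, ?_, ?_⟩
  · rw [sum_segment]
    rintro _ ⟨x, hx, rfl⟩
    obtain ⟨y, ⟨t, ht, rfl⟩, hy⟩ := h2 hx
    refine ⟨t, ht, ?_⟩
    show x = _
    rw [← hy]
    show (1 + η) • (∑ j, t j • v j) = _
    rw [Finset.smul_sum]
    refine Finset.sum_congr rfl fun j _ => ?_
    rw [smul_comm]
  · rw [sum_segment]
    rintro _ ⟨t, ht, rfl⟩
    have hmem : ∑ j, t j • v j ∈ K := h1 ⟨t, ht, rfl⟩
    have he : (∑ j, t j • ((1 + η) • v j)) =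
        (1 + ε) • (((1 + η) / (1 + ε)) • ∑ j, t j • v j) := by
      rw [smul_smul, mul_div_cancel₀ _ (by linarith : (1 + ε) ≠ 0), Finset.smul_sum]
      refine Finset.sum_congr rfl fun j _ => ?_
      rw [smul_comm]
    rw [he]
    refine Set.smul_mem_smul_set ⟨_, ?_, rfl⟩
    refine hZ.1.smul_mem_of_zero_mem hne hmem ⟨by positivity, ?_⟩
    rw [div_le_one (by linarith)]
    linarith

end Pool.Agent.S12948
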