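import Pool.Statements.S14895
import Pool.Agent.Helper77.RelFree

set_option autoImplicit false
open Pool Pool.MP_735cdd_lc

namespace Pool.Agent.S14895

/-- Every torsion-free group that is free in its own variety on an infinite basis fails ℵ1-homogeneity: some countable tuples a, b share a type, yet some element c has no d making (c,a) and (d,b) share a type. -/
theorem result :
  ∀ (G : Type) [Group G],
    (∀ g : G, ∀ n : ℕ, 0 < n → g ^ n = 1 → g = 1) →
    (∃ X : Set G, X.Infinite ∧ Subgroup.closure X = ⊤ ∧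
      ∀ f : X → G, ∃ φ : G →* G, ∀ x : X, φ x = f x) →
    ∀ [S : (FirstOrder.Language.mk (fun _ => Unit) (fun _ => Empty)).Structure G],
      (∀ (n : ℕ) (f : (FirstOrder.Language.mk (fun _ => Unit) (fun _ => Empty)).Functions n)
          (xs : Fin n → G),
        FirstOrder.Language.Structure.funMap f xs = (List.ofFn xs).prod) →
      ¬ ∀ a b : ℕ → G,
        (∀ φ : (FirstOrder.Language.mk (fun _ => Unit) (fun _ => Empty)).Formula ℕ,
          φ.Realize a ↔ φ.Realize b) →
        ∀ c : G, ∃ d : G,
          ∀ ψ : (FirstOrder.Language.mk (fun _ => Unit) (fun _ => Empty)).Formula (Unit ⊕ ℕ),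
            ψ.Realize (Sum.elim (fun _ => c) a) ↔ ψ.Realize (Sum.elim (fun _ => d) b) := by
  classical
  intro G _ htf ⟨X, hinf, hcl, hfree⟩ S hS hhom
  have hX : Pool.Agent.Helper77.RelFree.IsBasis X := ⟨hcl, hfree⟩
  -- a sequence of distinct basis elements
  obtain ⟨x, hx, hxX⟩ : ∃ x : ℕ → G, Function.Injective x ∧ ∀ i, x i ∈ X := by
    have : Infinite X := hinf.to_subtype
    exact ⟨fun i => (Infinite.natEmbedding X i : G),
      fun i j h => (Infinite.natEmbedding X).injective (Subtype.ext h),
      fun i => (Infinite.natEmbedding X i).2⟩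
  -- the tuples `y` and `x` have the same type
  have htype : ∀ φ : (FirstOrder.Language.mk (fun _ => Unit) (fun _ => Empty)).Formula ℕ,
      φ.Realize (Pool.Agent.Helper77.RelFree.yy x) ↔ φ.Realize x := by
    intro φ
    obtain ⟨n, hn⟩ : ∃ n, ∀ i ∈ φ.freeVarFinset, i < n :=
      ⟨φ.freeVarFinset.sup id + 1, fun i hi => Nat.lt_succ_of_le (Finset.le_sup (f := id) hi)⟩
    obtain ⟨σ, hσ⟩ := Pool.Agent.Helper77.RelFree.exists_aut hX x hx hxX n
    have h1 := FirstOrder.Language.StrongHomClass.realize_formula
      (Pool.Agent.Helper77.RelFree.toEquiv hS σ) φ (v := x)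
    rw [← h1]
    unfold FirstOrder.Language.Formula.Realize
    have h3 := FirstOrder.Language.BoundedFormula.realize_restrictFreeVar (φ := φ)
      (f := fun i : φ.freeVarFinset => i)
      (v := fun i : φ.freeVarFinset => Pool.Agent.Helper77.RelFree.yy x i)
      (xs := (default : Fin 0 → G)) (Pool.Agent.Helper77.RelFree.yy x) (fun _ => rfl)
    have h4 := FirstOrder.Language.BoundedFormula.realize_restrictFreeVar (φ := φ)
      (f := fun i : φ.freeVarFinset => i)
      (v := fun i : φ.freeVarFinset => Pool.Agent.Helper77.RelFree.yy x i)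
      (xs := (default : Fin 0 → G)) (Pool.Agent.Helper77.RelFree.toEquiv hS σ ∘ x)
      (fun i => (hσ i (hn i i.2)).symm)
    exact h3.symm.trans h4
  obtain ⟨d, hd⟩ := hhom _ _ htype (x 0)
  refine Pool.Agent.Helper77.RelFree.no_solution htf hX x hx hxX d fun n => ?_
  have h1 := (Pool.Agent.Helper77.RelFree.realize_fm hS
    (Sum.elim (fun _ => x 0) (Pool.Agent.Helper77.RelFree.yy x)) n).2
    ⟨x n, by
      have := Pool.Agent.Helper77.RelFree.val_yy x n 0
      rw [Nat.zero_add] at this
      exact this.symm⟩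
  exact (Pool.Agent.Helper77.RelFree.realize_fm hS (Sum.elim (fun _ => d) x) n).1
    ((hd (Pool.Agent.Helper77.RelFree.fm n)).1 h1)

end Pool.Agent.S14895
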