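import Pool.Statements.S15198
import Pool.Agent.H75C.Main

/-!
Circulant matrices of finite abelian groups with rational entries are not rigid over the rational
numbers.

Idea of the proof. (1) The Fourier matrix of `(ZMod a) ^ n` is `h(w)⁻¹ h(x)⁻¹ h(w + x)` for a
quadratic function `h`, and `h` is a symmetric function. Interpolating its Fourier transform by a
polynomial of degree at most `τ n` in the numbers of coordinates of each kind (Newton interpolation
on an `ℓ¹`-ball, which needs degree twice the radius, independently of the dimension `a`), one sees
that the Fourier matrix is the sum of a matrix with relative rank at most `2 ^ a exp (- τ² n / 256)`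
and of a matrix whose rows and columns have at most `a ^ (ε n)` nonzero entries. The exponential
saving does not depend on `a`. (2) Therefore the product of many such groups with coprime
`a = p₁, ..., pₖ` of similar size has a saving larger than any constant factor per coordinate.
(3) A sum `x + z` of two integers is recovered from the sums of their digits to the base `d`
with `2 d ≤ p₁ ⋯ pₖ + 1`, and these are elements of the product of the cyclic groups of orders `pⱼ`;
one loses only the factor two per digit. So all circulants of large cyclic groups are sums of a matrix
of small rank and a sparse matrix over a number field which is fixed once `ε` is fixed.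
(4) A linear projection of this field to the rational numbers increases the rank only by a constant
factor. Small cyclic factors of the group are treated directly by (1).
-/

set_option autoImplicit false
open Pool Pool.MP_aac87f_lc

namespace Pool.Agent.S15198

/-- The negation of the preceding statement: There is ε>0 such that for arbitrarily large finite abelian groups G some rational matrix f(x−y) has the following property: changing fewer than ∣G∣^(1+ε) entries (by rationals) always leaves rank above ε∣G∣. -/
theorem result :
    ¬ (∃ ε : ℝ, 0 < ε ∧ ∀ N : ℕ, ∃ (G : Type) (_ : AddCommGroup G) (_ : Fintype G), N ≤ Fintype.card G ∧ ∃ f : G → ℚ, ∀ S : Matrix G G ℚ, ((Finset.univ.filter (fun p : G × G => S p.1 p.2 ≠ 0)).card : ℝ) < (Fintype.card G : ℝ) ^ (1 + ε) → ε * (Fintype.card G : ℝ) < ((Matrix.of (fun x y : G => f (x - y)) - S).rank : ℝ)) := by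
  rintro ⟨ε, hε, h⟩
  obtain ⟨N, hN⟩ := Pool.Agent.H75C.main ε hε
  obtain ⟨G, i1, i2, hG, f, hf⟩ := h N
  obtain ⟨S, hS1, hS2⟩ := hN G hG f
  exact absurd (hf S hS1) (not_lt.2 hS2)

end Pool.Agent.S15198
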