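import Pool.Statements.S15624
-- import your own Pool.Agent.* helpers here
import Pool.Agent.H73.SOS.Range

set_option autoImplicit false
open Pool Pool.MP_f72d10_lc

namespace Pool.Agent.S15624

/-- The negation of the preceding statement: There is a constant κ>0 such that for every nonzero real polynomial f and every way of writing f as a sum of real multiples of squares of polynomials, the number of distinct real roots of f is at most κ times the total number of monomials of the squared polynomials. -/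
theorem result :
    ¬ (∃ κ : ℝ, 0 < κ ∧
      ∀ f : Polynomial ℝ, f ≠ 0 →
        ∀ (s : ℕ) (c : Fin s → ℝ) (g : Fin s → Polynomial ℝ),
          f = ∑ i, Polynomial.C (c i) * g i ^ 2 →
            (f.roots.toFinset.card : ℝ) ≤ κ * ((∑ i, (g i).support.card : ℕ) : ℝ)) := by
  rintro ⟨κ, hκ, h⟩
  obtain ⟨q, hq⟩ := exists_nat_gt (7344 * κ + 2)
  have hq1' : (2 : ℝ) < q := by linarith
  have hq1 : 2 < q := by exact_mod_cast hq1'
  obtain ⟨c, g, h1, h2, h3⟩ := Pool.Agent.H73.SOS.squares (q ^ 3) (q ^ 2) q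
    (by calc 2 ≤ 2 ^ 3 := by norm_num
          _ ≤ q ^ 3 := Nat.pow_le_pow_left hq1.le 3)
    (by calc 4 = 2 ^ 2 := by norm_num
          _ ≤ q ^ 2 := Nat.pow_le_pow_left hq1.le 2) le_rfl le_rfl
  have h4 := h _ h2 (q ^ 3) c g rfl
  have h5 : ((∑ i, (g i).support.card : ℕ) : ℝ) ≤ (q : ℝ) ^ 5 := by
    have h6 : ∑ i, (g i).support.card ≤ q ^ 5 := by
      calc ∑ i, (g i).support.card ≤ ∑ _i : Fin (q ^ 3), q ^ 2 :=
            Finset.sum_le_sum fun i _ => h1 i
        _ = q ^ 5 := by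
            rw [Finset.sum_const, Finset.card_univ, Fintype.card_fin, smul_eq_mul]
            ring
    exact_mod_cast h6
  have h7 : (q : ℝ) ^ 6 ≤
      7344 * ((∑ i, Polynomial.C (c i) * g i ^ 2).roots.toFinset.card : ℝ) := by
    have h8 : q ^ 6 ≤ 7344 * (∑ i, Polynomial.C (c i) * g i ^ 2).roots.toFinset.card := by
      calc q ^ 6 = q ^ 3 * q ^ 2 * q := by ring
        _ ≤ _ := h3
    exact_mod_cast h8
  have h9 : (q : ℝ) ^ 6 ≤ 7344 * (κ * (q : ℝ) ^ 5) :=
    h7.trans (mul_le_mul_of_nonneg_left (h4.trans (mul_le_mul_of_nonneg_left h5 hκ.le))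
      (by norm_num))
  have hpos : (0 : ℝ) < (q : ℝ) ^ 5 := by positivity
  have h10 : (q : ℝ) * (q : ℝ) ^ 5 ≤ (7344 * κ) * (q : ℝ) ^ 5 := by
    calc (q : ℝ) * (q : ℝ) ^ 5 = (q : ℝ) ^ 6 := by ring
      _ ≤ 7344 * (κ * (q : ℝ) ^ 5) := h9
      _ = (7344 * κ) * (q : ℝ) ^ 5 := by ring
  have h11 := le_of_mul_le_mul_right h10 hpos
  linarith

end Pool.Agent.S15624
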