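import Pool.Statements.S17877
import Pool.Agent.Helper83.Weird.Final

/-!
# The abundancy index of weird numbers is bounded

Outline of the proof.

* If many primes of `m` lie in a dyadic interval `[K, 2K)` (at least `K / L` of them, where `K` is
  larger than a power of `L`), then by the pigeonhole principle there are at least `4 K ^ 2` disjoint pairs
  of products of three such primes with one common difference `g`, where `g` is at most a power of
  `L`. Choosing one member of each pair, together with subset sums of `g - 1` of the primes, covers
  all integers of an interval of length `4 K ^ 2` (`seed`).
* All the other divisors of the product `N` of the primes of `m` that are less than `2K` are added in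
  increasing order. Each divisor `d` of `N` with `4 K ^ 2 < d < N` is at most the sum of the smaller divisors
  (exchange a product of size between `X ^ 2` and `X ^ 3`, `X = 2 K`, for products of two primes from
  `[K, 2K)`; or two such primes for a missing prime in `[K, 2K)`; or a prime `q` for a smaller missing
  prime `w`, which needs the tail condition that the sum of the `1 / q` with `q > w` is at least `1 / w`),
  so there are no gaps and `N` is a sum of distinct proper divisors of `N` (`main_lemma`).
* If the sum of `1 / p` over the primes `p` of `m` with `p ≥ 2 ^ k₀` exceeds `3`, then there is a
  dyadic scale at which the density and the tail condition hold (`selection`).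
-/

set_option autoImplicit false
open Pool Pool.MP_9b74c8_nt

namespace Pool.Agent.S17877

/-- There is a real constant C such that every weird number m (abundant, with no subset of its proper divisors summing to m) has sum of divisors divided by m at most C. -/
theorem result :
    ∃ C : ℝ, ∀ m : ℕ, 0 < m →
      m < ∑ i ∈ m.properDivisors, i →
      (¬ ∃ s ⊆ m.properDivisors, ∑ i ∈ s, i = m) →
      ((∑ i ∈ m.divisors, i : ℕ) : ℝ) / (m : ℝ) ≤ C := by
  obtain ⟨C, hC⟩ := Pool.Agent.Helper83.Weird.weird_bounded
  exact ⟨C, fun m hm _ hns => hC m hm hns⟩

end Pool.Agent.S17877
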