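import Pool.Statements.S17945
import Pool.Agent.Results.MP_9fb0d9_nt.InfiniteIndex

set_option autoImplicit false
open Pool Pool.MP_9fb0d9_nt

namespace Pool.Agent.S17945

theorem aux (K : Type) [Field K] [NumberField K] : ∃ (f : Polynomial K),
      2 ≤ f.natDegree ∧
      (∀ m : ℕ, 1 ≤ m → (fun x => Polynomial.eval x f)^[m] 0 ≠ 0) ∧
      ∀ M : ℕ, ∃ n : ℕ, 1 ≤ n ∧
        M * Module.finrank K (Polynomial.SplittingField ((f.comp)^[n] Polynomial.X)) <
          Module.finrank (RatFunc K)
            (Polynomial.SplittingField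
              (Polynomial.map (algebraMap K (RatFunc K)) ((f.comp)^[n] Polynomial.X)
                - Polynomial.C (RatFunc.X : RatFunc K))) := by
  obtain ⟨f, -, hdeg, -, hper, -, -, hinf⟩ :=
    Pool.Agent.Results.MP_9fb0d9_nt.InfiniteIndex.result K
  refine ⟨f, hdeg.ge, hper, fun M => ?_⟩
  obtain ⟨n, hn, h⟩ := hinf M
  refine ⟨n, hn, ?_⟩
  have e : Pool.Agent.Results.MP_9fb0d9_nt.InfiniteIndex.genPoly f n =
      Polynomial.map (algebraMap K (RatFunc K)) ((f.comp)^[n] Polynomial.X)
        - Polynomial.C (RatFunc.X : RatFunc K) := by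
    unfold Pool.Agent.Results.MP_9fb0d9_nt.InfiniteIndex.genPoly
      Pool.Agent.Results.MP_9fb0d9_nt.InfiniteIndex.iter
    rw [RatFunc.algebraMap_eq_C]
  have h1 : Polynomial.IsSplittingField K
      (Polynomial.SplittingField ((f.comp)^[n] Polynomial.X))
      (Pool.Agent.Results.MP_9fb0d9_nt.InfiniteIndex.iter f n) :=
    Polynomial.IsSplittingField.splittingField ((f.comp)^[n] Polynomial.X)
  have h2 : Polynomial.IsSplittingField (RatFunc K)
      (Polynomial.SplittingField
        (Polynomial.map (algebraMap K (RatFunc K)) ((f.comp)^[n] Polynomial.X)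
          - Polynomial.C (RatFunc.X : RatFunc K)))
      (Pool.Agent.Results.MP_9fb0d9_nt.InfiniteIndex.genPoly f n) := by
    rw [e]
    exact Polynomial.IsSplittingField.splittingField _
  exact h _ _ h1 h2

/-- There is a number field K and f in K[x] of degree at least 2 with 0 not periodic, such that [split field of f^n(x)-t over K(t)] / [split field of f^n over K] is unbounded in n. -/
theorem result :
    ∃ (K : Type) (_ : Field K) (_ : NumberField K) (f : Polynomial K),
      2 ≤ f.natDegree ∧
      (∀ m : ℕ, 1 ≤ m → (fun x => Polynomial.eval x f)^[m] 0 ≠ 0) ∧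
      ∀ M : ℕ, ∃ n : ℕ, 1 ≤ n ∧
        M * Module.finrank K (Polynomial.SplittingField ((f.comp)^[n] Polynomial.X)) <
          Module.finrank (RatFunc K)
            (Polynomial.SplittingField
              (Polynomial.map (algebraMap K (RatFunc K)) ((f.comp)^[n] Polynomial.X)
                - Polynomial.C (RatFunc.X : RatFunc K))) :=
  ⟨ℚ, inferInstance, inferInstance, aux ℚ⟩

end Pool.Agent.S17945
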